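import Mathlib

/-!
# Linear disjointness of the algebraic closure of `k` and an extension in which `k` is
relatively algebraically closed (helper53)
-/

set_option autoImplicit false

namespace Pool.Agent.Edge.H53

open Polynomial

section

variable {k Ω Ω' : Type*} [Field k] [Field Ω] [Field Ω'] [Algebra k Ω] [Algebra Ω Ω']
  [Algebra k Ω'] [IsScalarTower k Ω Ω']

theorem natDegree_minpoly (hrel : ∀ z : Ω, IsIntegral k z → z ∈ (algebraMap k Ω).range)
    (α : Ω') (hα : IsIntegral k α) :
    (minpoly k α).natDegree ≤ (minpoly Ω α).natDegree := by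
  have hαΩ : IsIntegral Ω α := hα.tower_top
  have hd : minpoly Ω α ∣ (minpoly k α).map (algebraMap k Ω) :=
    minpoly.dvd_map_of_isScalarTower k Ω α
  have hl := integralClosure.mem_lifts_of_monic_of_dvd_map (R := k) (K := Ω)
    (minpoly.monic hα) (minpoly.monic hαΩ) hd
  have hl2 : minpoly Ω α ∈ lifts (algebraMap k Ω) := by
    rw [lifts_iff_coeff_lifts] at hl ⊢
    intro i
    obtain ⟨⟨z, hz⟩, hz2⟩ := hl i
    obtain ⟨t, ht⟩ := hrel z hz
    exact ⟨t, by rw [ht, ← hz2]; rfl⟩
  obtain ⟨p, hp⟩ := (mem_lifts _).1 hl2
  have hp0 : aeval α p = 0 := by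
    have : aeval α (p.map (algebraMap k Ω)) = 0 := by rw [hp]; exact minpoly.aeval Ω α
    rwa [aeval_map_algebraMap] at this
  have hpne : p ≠ 0 := by
    rintro rfl
    rw [Polynomial.map_zero] at hp
    exact minpoly.ne_zero hαΩ hp.symm
  have h1 := natDegree_le_of_dvd (minpoly.dvd k α hp0) hpne
  have h2 : p.natDegree = (minpoly Ω α).natDegree := by
    rw [← hp, natDegree_map]
  omega

/-- linear disjointness -/
theorem lin_disj [CharZero k] (hrel : ∀ z : Ω, IsIntegral k z → z ∈ (algebraMap k Ω).range)
    {ι : Type*} (v : ι → Ω) (hv : LinearIndependent k v) :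
    LinearIndependent (algebraicClosure k Ω') (fun i => algebraMap Ω Ω' (v i)) := by
  classical
  rw [linearIndependent_iff']
  intro s g hg
  -- a finite extension containing the coefficients
  let F : IntermediateField k Ω' := IntermediateField.adjoin k
    ((fun i => ((g i : algebraicClosure k Ω') : Ω')) '' (s : Set ι))
  have hfin : FiniteDimensional k F := by
    refine IntermediateField.finiteDimensional_adjoin ?_
    rintro _ ⟨i, -, rfl⟩
    exact mem_algebraicClosure_iff'.1 (g i).2
  have hmem : ∀ i ∈ s, ((g i : algebraicClosure k Ω') : Ω') ∈ F := fun i hi =>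
    IntermediateField.subset_adjoin _ _ ⟨i, hi, rfl⟩
  let pb := Field.powerBasisOfFiniteOfSeparable k F
  have hf : ∀ i : s, ∃ f : k[X], f.natDegree < pb.dim ∧
      (⟨g i.1, hmem i.1 i.2⟩ : F) = aeval pb.gen f := fun i => pb.exists_eq_aeval _
  choose f hf1 hf2 using hf
  set α : Ω' := (pb.gen : Ω') with hα
  have hαint : IsIntegral k α := by
    have : IsIntegral k pb.gen := IsIntegral.of_finite k pb.gen
    exact this.map (F.val)
  have hdim : pb.dim = (minpoly k α).natDegree := by
    rw [← pb.natDegree_minpoly]
    congr 1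
    exact (minpoly.algebraMap_eq (algebraMap F Ω').injective pb.gen).symm
  have hval : ∀ i : s, ((g i.1 : algebraicClosure k Ω') : Ω') = aeval α (f i) := by
    intro i
    have h := congrArg (F.val) (hf2 i)
    rw [← Polynomial.aeval_algHom_apply] at h
    exact h
  -- powers of `α` are independent over `Ω`
  have hpow := linearIndependent_pow (K := Ω) α
  have hle := natDegree_minpoly hrel α hαint
  have hsum : ∑ j ∈ Finset.range pb.dim, algebraMap Ω Ω'
      (∑ i : s, (f i).coeff j • v i.1) * α ^ j = 0 := by
    have h1 : ∑ i ∈ s, g i • algebraMap Ω Ω' (v i) =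
        ∑ i : s, aeval α (f i) * algebraMap Ω Ω' (v i.1) := by
      rw [← Finset.sum_coe_sort]
      refine Finset.sum_congr rfl fun i _ => ?_
      rw [← hval i]
      rfl
    rw [h1] at hg
    rw [← hg]
    have h2 : ∀ i : s, aeval α (f i) * algebraMap Ω Ω' (v i.1) =
        ∑ j ∈ Finset.range pb.dim, algebraMap Ω Ω' ((f i).coeff j • v i.1) * α ^ j := by
      intro i
      rw [aeval_eq_sum_range' (hf1 i), Finset.sum_mul]
      refine Finset.sum_congr rfl fun j _ => ?_
      rw [Algebra.smul_def, Algebra.smul_def, map_mul, ← IsScalarTower.algebraMap_apply]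
      ring
    simp only [h2, map_sum, Finset.sum_mul]
    rw [Finset.sum_comm]
  have hzero : ∀ j < pb.dim, ∑ i : s, (f i).coeff j • v i.1 = 0 := by
    intro j hj
    have hj2 : j < (minpoly Ω α).natDegree := by omega
    rw [Fintype.linearIndependent_iff] at hpow
    refine hpow (fun j => if (j : ℕ) < pb.dim then ∑ i : s, (f i).coeff j • v i.1 else 0) ?_
      ⟨j, hj2⟩ |>.symm.trans ?_ |>.symm
    · rw [← hsum]
      rw [Fin.sum_univ_eq_sum_range (fun j => (if j < pb.dim then
        ∑ i : s, (f i).coeff j • v i.1 else 0) • α ^ j)]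
      have hsub : Finset.range pb.dim ⊆ Finset.range (minpoly Ω α).natDegree := by
        intro a ha
        rw [Finset.mem_range] at ha ⊢
        omega
      rw [← Finset.sum_subset hsub]
      · refine Finset.sum_congr rfl fun a ha => ?_
        rw [Finset.mem_range] at ha
        rw [if_pos ha, Algebra.smul_def]
      · intro a _ ha
        rw [Finset.mem_range] at ha
        rw [if_neg ha, zero_smul]
    · simp [hj]
  -- conclusion
  have hcoef : ∀ i : s, f i = 0 := by
    intro i
    ext j
    rw [coeff_zero]
    by_cases hj : j < pb.dim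
    · have h3 := hzero j hj
      have h4 := linearIndependent_iff'.1 (hv.comp (fun i : s => i.1) Subtype.val_injective)
        Finset.univ (fun i => (f i).coeff j) h3 i (Finset.mem_univ _)
      exact h4
    · exact coeff_eq_zero_of_natDegree_lt (by have := hf1 i; omega)
  intro i hi
  have h5 := hval ⟨i, hi⟩
  rw [hcoef, map_zero] at h5
  exact Subtype.ext h5

end

end Pool.Agent.Edge.H53
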