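import Pool.Agent.Lib.MP_c7af3c_ag.EDGE.H53.Block
import Pool.Agent.Lib.MP_c7af3c_ag.EDGE.H53.LinDis

/-!
# EDGE for all c, part 5: extension of the base fields (helper53)
-/

set_option autoImplicit false

namespace Pool.Agent.Edge.H53

open MvPolynomial LangT1

section

variable {Ω Ω' : Type*} [Field Ω] [Field Ω'] [Algebra Ω Ω'] {n c : ℕ} {d : Fin c → ℕ}

/-- extension of scalars of a linear map on tuples -/
noncomputable def bcW (Ω' : Type*) [Field Ω'] [Algebra Ω Ω']
    (W : (Fin c → MvPolynomial (Fin 3) Ω) →ₗ[Ω] (Fin (n + 1) → Ω)) :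
    (Fin c → MvPolynomial (Fin 3) Ω') →ₗ[Ω'] (Fin (n + 1) → Ω') :=
  ∑ a, ((basisMonomials (Fin 3) Ω').constr Ω' (fun I p => algebraMap Ω Ω'
    (W (Pi.single a (monomial I 1)) p))) ∘ₗ LinearMap.proj a

theorem bcW_single (W : (Fin c → MvPolynomial (Fin 3) Ω) →ₗ[Ω] (Fin (n + 1) → Ω)) (a : Fin c)
    (I : Fin 3 →₀ ℕ) : bcW Ω' W (Pi.single a (monomial I 1)) =
      fun p => algebraMap Ω Ω' (W (Pi.single a (monomial I 1)) p) := by
  classical
  rw [bcW, LinearMap.sum_apply, Finset.sum_eq_single a]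
  · rw [LinearMap.comp_apply, LinearMap.proj_apply, Pi.single_eq_same]
    have h := (basisMonomials (Fin 3) Ω').constr_basis Ω' (fun I p => algebraMap Ω Ω'
      (W (Pi.single a (monomial I 1)) p)) I
    rw [coe_basisMonomials] at h
    exact h
  · intro b _ hb
    rw [LinearMap.comp_apply, LinearMap.proj_apply, Pi.single_eq_of_ne hb, map_zero]
  · intro h; exact absurd (Finset.mem_univ _) h

theorem mp_sum {ι : Type*} (s : Finset ι) (A : ι → Fin c → MvPolynomial (Fin 3) Ω) :
    mp Ω' (∑ i ∈ s, A i) = ∑ i ∈ s, mp Ω' (A i) := by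
  funext a
  simp only [mp, Finset.sum_apply, map_sum]

theorem mp_expand (G : Fin c → MvPolynomial (Fin 3) Ω) :
    mp Ω' G = ∑ a, ∑ I ∈ (G a).support, algebraMap Ω Ω' (coeff I (G a)) •
      (Pi.single a (monomial I 1) : Fin c → MvPolynomial (Fin 3) Ω') := by
  conv_lhs => rw [tup_expand G]
  rw [mp_sum]
  refine Finset.sum_congr rfl fun a _ => ?_
  rw [mp_sum]
  refine Finset.sum_congr rfl fun I _ => ?_
  rw [mp_smul, ← map_single (k := Ω) (Ω := Ω')]
  rfl

theorem bcW_mp (W : (Fin c → MvPolynomial (Fin 3) Ω) →ₗ[Ω] (Fin (n + 1) → Ω))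
    (G : Fin c → MvPolynomial (Fin 3) Ω) :
    bcW Ω' W (mp Ω' G) = fun p => algebraMap Ω Ω' (W G p) := by
  rw [mp_expand, map_sum]
  conv_rhs => rw [tup_expand G, map_sum]
  funext p
  rw [Finset.sum_apply, Finset.sum_apply, map_sum]
  refine Finset.sum_congr rfl fun a _ => ?_
  rw [map_sum, map_sum, Finset.sum_apply, Finset.sum_apply, map_sum]
  refine Finset.sum_congr rfl fun I _ => ?_
  rw [map_smul, bcW_single, map_smul, Pi.smul_apply, Pi.smul_apply, smul_eq_mul, smul_eq_mul,
    map_mul]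

theorem mp_mulL (m : Fin 3 → Ω) (G : Fin c → MvPolynomial (Fin 3) Ω) :
    mp Ω' (mulL m G) = mulL (fun i => algebraMap Ω Ω' (m i)) (mp Ω' G) := mp_lin m G

/-- extension of scalars of a functional -/
noncomputable def bcT (Ω' : Type*) [Field Ω'] [Algebra Ω Ω'] (τ : (Fin (n + 1) → Ω) →ₗ[Ω] Ω) :
    (Fin (n + 1) → Ω') →ₗ[Ω'] Ω' where
  toFun u := ∑ p, u p * algebraMap Ω Ω' (τ (Pi.single p 1))
  map_add' u v := by simp only [Pi.add_apply, add_mul, Finset.sum_add_distrib]
  map_smul' r u := by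
    simp only [Pi.smul_apply, smul_eq_mul, RingHom.id_apply, Finset.mul_sum, mul_assoc]

theorem bcT_alg (τ : (Fin (n + 1) → Ω) →ₗ[Ω] Ω) (u : Fin (n + 1) → Ω) :
    bcT Ω' τ (fun p => algebraMap Ω Ω' (u p)) = algebraMap Ω Ω' (τ u) := by
  classical
  have h : τ u = ∑ p, u p * τ (Pi.single p 1) := by
    have h0 : τ u = τ (∑ p, (Pi.single p (u p) : Fin (n + 1) → Ω)) :=
      congrArg τ (Finset.univ_sum_single u).symm
    rw [h0, map_sum]
    refine Finset.sum_congr rfl fun p _ => ?_
    have : (Pi.single p (u p) : Fin (n + 1) → Ω) = u p • (Pi.single p 1 : Fin (n + 1) → Ω) := by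
      rw [← Pi.single_smul, smul_eq_mul, mul_one]
    rw [this, map_smul, smul_eq_mul]
  rw [h, map_sum]
  change ∑ p, algebraMap Ω Ω' (u p) * algebraMap Ω Ω' (τ (Pi.single p 1)) = _
  refine Finset.sum_congr rfl fun p _ => ?_
  rw [map_mul]

/-- polar form of the determinant -/
def polD (X Y : Matrix (Fin 2) (Fin 2) Ω) : Ω :=
  X 0 0 * Y 1 1 + X 1 1 * Y 0 0 - X 0 1 * Y 1 0 - X 1 0 * Y 0 1

theorem polD_eq (X Y : Matrix (Fin 2) (Fin 2) Ω) : polD X Y = (X + Y).det - X.det - Y.det := by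
  simp only [polD, Matrix.det_fin_two, Matrix.add_apply]
  ring

theorem two_det (X : Matrix (Fin 2) (Fin 2) Ω) : 2 * X.det = polD X X := by
  simp only [polD, Matrix.det_fin_two]
  ring

theorem polD_sum {ι : Type*} (s : Finset ι) (c : ι → Ω) (N : ι → Matrix (Fin 2) (Fin 2) Ω)
    (t : Finset ι) (c' : ι → Ω) :
    polD (∑ i ∈ s, c i • N i) (∑ j ∈ t, c' j • N j) =
      ∑ i ∈ s, ∑ j ∈ t, c i * c' j * polD (N i) (N j) := by
  simp only [polD, Matrix.sum_apply, Matrix.smul_apply, smul_eq_mul, Finset.sum_mul_sum,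
    ← Finset.sum_add_distrib, ← Finset.sum_sub_distrib]
  refine Finset.sum_congr rfl fun i _ => Finset.sum_congr rfl fun j _ => ?_
  ring

end

section

variable {k Ω : Type*} [Field k] [Field Ω] [Algebra k Ω] {n c : ℕ} {d : Fin c → ℕ}

/-- the situation on the plane, before the extension of the fields -/
structure Sit0 (d : Fin c → ℕ) (y : Fin 3 → Ω) (f : Fin (n + 1) → Fin c → MvPolynomial (Fin 3) k)
    (x : Fin (n + 1) → Ω)
    (W : (Fin c → MvPolynomial (Fin 3) Ω) →ₗ[Ω] (Fin (n + 1) → Ω)) : Prop where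
  hd : ∀ a, 1 ≤ d a
  hy : LinearIndependent k y
  hf : ∀ p, IsB d (f p)
  hE : ∀ (m : Fin 3 → Ω) (u : Fin (n + 1) → Ω),
    W (mulL m (fu f u)) + (∑ i, m i * y i) • u ∈ Submodule.span Ω {x}
  hR : ∀ G : Fin c → MvPolynomial (Fin 3) Ω, (∀ a, (G a).IsHomogeneous (d a)) →
    ∀ a, eval y (fu f (W G) a) = - eval y (G a)
  hX : ∀ a, eval y (fu f x a) = 0

theorem Sit0.toSit {y : Fin 3 → Ω} {f : Fin (n + 1) → Fin c → MvPolynomial (Fin 3) k}
    {x : Fin (n + 1) → Ω} {W : (Fin c → MvPolynomial (Fin 3) Ω) →ₗ[Ω] (Fin (n + 1) → Ω)}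
    (S : Sit0 d y f x W) : Sit d y f x W where
  hy := S.hy
  hf := S.hf
  hE := S.hE
  hR A m hA hm a := by
    rw [S.hR (mulL m A) (fun a => by
      have h := (lin_homogeneous m).mul (hA a)
      rwa [show 1 + (d a - 1) = d a by have := S.hd a; omega] at h) a, mulL_apply, map_mul,
      eval_lin, hm, zero_mul, neg_zero]
  hX := S.hX

/-- `fu` is linear in the vector -/
theorem fu_eval (f : Fin (n + 1) → Fin c → MvPolynomial (Fin 3) k) (y : Fin 3 → Ω)
    (u : Fin (n + 1) → Ω) (a : Fin c) : eval y (fu f u a) =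
      ∑ p, u p * eval y (MvPolynomial.map (algebraMap k Ω) (f p a)) := by
  simp only [fu, map_sum, map_mul, eval_C]

end

section

variable {k Ω Ω' : Type*} [Field k] [Field Ω] [Field Ω'] [Algebra k Ω] [Algebra Ω Ω']
  [Algebra k Ω'] [IsScalarTower k Ω Ω'] {n c : ℕ} {d : Fin c → ℕ}

/-- the forms `f` over the algebraic closure of `k` -/
noncomputable def fK (Ω' : Type*) [Field Ω'] [Algebra k Ω']
    (f : Fin (n + 1) → Fin c → MvPolynomial (Fin 3) k) :
    Fin (n + 1) → Fin c → MvPolynomial (Fin 3) (algebraicClosure k Ω') :=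
  fun p => mp (algebraicClosure k Ω') (f p)

theorem mp_fK (f : Fin (n + 1) → Fin c → MvPolynomial (Fin 3) k) (p : Fin (n + 1)) (a : Fin c) :
    MvPolynomial.map (algebraMap (algebraicClosure k Ω') Ω') (fK Ω' f p a) =
      MvPolynomial.map (algebraMap Ω Ω') (MvPolynomial.map (algebraMap k Ω) (f p a)) := by
  rw [fK, mp, map_map, map_map]
  congr 1
  rw [← IsScalarTower.algebraMap_eq, ← IsScalarTower.algebraMap_eq]

theorem fu_fK (f : Fin (n + 1) → Fin c → MvPolynomial (Fin 3) k) (u : Fin (n + 1) → Ω) :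
    fu (fK Ω' f) (fun p => algebraMap Ω Ω' (u p)) = mp Ω' (fu f u) := by
  funext a
  simp only [fu, mp, map_sum, map_mul, map_C]
  refine Finset.sum_congr rfl fun p _ => ?_
  rw [mp_fK (Ω := Ω)]

theorem eval_alg (y : Fin 3 → Ω) (A : MvPolynomial (Fin 3) Ω) :
    eval (fun i => algebraMap Ω Ω' (y i)) (MvPolynomial.map (algebraMap Ω Ω') A) =
      algebraMap Ω Ω' (eval y A) := by
  rw [eval_map]
  exact (eval₂_comp (algebraMap Ω Ω') y A).symm

theorem Sit0.ext [CharZero k] (hrel : ∀ z : Ω, IsIntegral k z → z ∈ (algebraMap k Ω).range)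
    {y : Fin 3 → Ω} {f : Fin (n + 1) → Fin c → MvPolynomial (Fin 3) k}
    {x : Fin (n + 1) → Ω} {W : (Fin c → MvPolynomial (Fin 3) Ω) →ₗ[Ω] (Fin (n + 1) → Ω)}
    (S : Sit0 d y f x W) : Sit0 d (fun i => algebraMap Ω Ω' (y i)) (fK Ω' f)
      (fun p => algebraMap Ω Ω' (x p)) (bcW Ω' W) where
  hd := S.hd
  hy := lin_disj hrel y S.hy
  hf p := (S.hf p).map
  hE m u := by
    classical
    -- unit vectors
    have hunit : ∀ i p, bcW Ω' W (mulL (Pi.single i 1) (fu (fK Ω' f) (Pi.single p 1))) +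
        (algebraMap Ω Ω' (y i)) • (Pi.single p 1 : Fin (n + 1) → Ω') ∈
        Submodule.span Ω' {fun p => algebraMap Ω Ω' (x p)} := by
      intro i p
      obtain ⟨r, hr⟩ := Submodule.mem_span_singleton.1 (S.hE (Pi.single i 1) (Pi.single p 1))
      refine Submodule.mem_span_singleton.2 ⟨algebraMap Ω Ω' r, ?_⟩
      have e1 : (Pi.single i 1 : Fin 3 → Ω') =
          fun j => algebraMap Ω Ω' ((Pi.single i 1 : Fin 3 → Ω) j) := by
        funext j
        by_cases hj : j = i
        · subst hj; rw [Pi.single_eq_same, Pi.single_eq_same, map_one]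
        · rw [Pi.single_eq_of_ne hj, Pi.single_eq_of_ne hj, map_zero]
      have e2 : (Pi.single p 1 : Fin (n + 1) → Ω') =
          fun j => algebraMap Ω Ω' ((Pi.single p 1 : Fin (n + 1) → Ω) j) := by
        funext j
        by_cases hj : j = p
        · subst hj; rw [Pi.single_eq_same, Pi.single_eq_same, map_one]
        · rw [Pi.single_eq_of_ne hj, Pi.single_eq_of_ne hj, map_zero]
      rw [e1, e2, fu_fK, ← mp_mulL, bcW_mp]
      have e3 : ∑ j, (Pi.single i 1 : Fin 3 → Ω) j * y j = y i := by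
        rw [Finset.sum_eq_single i]
        · rw [Pi.single_eq_same, one_mul]
        · intro b _ hb; rw [Pi.single_eq_of_ne hb, zero_mul]
        · intro h; exact absurd (Finset.mem_univ _) h
      rw [e3] at hr
      funext q
      have h := congrFun hr q
      simp only [Pi.smul_apply, Pi.add_apply, smul_eq_mul] at h ⊢
      rw [← map_mul, h, map_add, map_mul]
    have hm : m = ∑ i, m i • (Pi.single i 1 : Fin 3 → Ω') := by
      funext j
      simp [Finset.sum_apply, Pi.single_apply]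
    have hu : u = ∑ p, u p • (Pi.single p 1 : Fin (n + 1) → Ω') := by
      funext j
      simp [Finset.sum_apply, Pi.single_apply]
    have hfu : fu (fK Ω' f) u = ∑ p, u p • fu (fK Ω' f) (Pi.single p 1) := by
      funext a
      simp only [Finset.sum_apply, Pi.smul_apply]
      rw [fu]
      refine Finset.sum_congr rfl fun p _ => ?_
      have : fu (fK Ω' f) (Pi.single p 1) a =
          MvPolynomial.map (algebraMap (algebraicClosure k Ω') Ω') (fK Ω' f p a) := by
        rw [fu, Finset.sum_eq_single p]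
        · rw [Pi.single_eq_same, C_1, one_mul]
        · intro b _ hb; rw [Pi.single_eq_of_ne hb, C_0, zero_mul]
        · intro h; exact absurd (Finset.mem_univ _) h
      rw [this, smul_eq_C_mul]
    have h1 : bcW Ω' W (mulL m (fu (fK Ω' f) u)) + (∑ i, m i * algebraMap Ω Ω' (y i)) • u =
        ∑ i, ∑ p, (m i * u p) • (bcW Ω' W (mulL (Pi.single i 1) (fu (fK Ω' f) (Pi.single p 1))) +
        (algebraMap Ω Ω' (y i)) • (Pi.single p 1 : Fin (n + 1) → Ω')) := by
      simp only [smul_add, Finset.sum_add_distrib]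
      congr 1
      · conv_lhs => rw [hm, mulL_sum, map_sum]
        refine Finset.sum_congr rfl fun i _ => ?_
        rw [mulL_smul, map_smul, hfu, map_sum, map_sum, Finset.smul_sum]
        refine Finset.sum_congr rfl fun p _ => ?_
        rw [map_smul, map_smul, smul_smul]
      · rw [Finset.sum_smul]
        refine Finset.sum_congr rfl fun i _ => ?_
        conv_lhs => rw [hu, Finset.smul_sum]
        refine Finset.sum_congr rfl fun p _ => ?_
        rw [smul_smul, smul_smul]
        congr 1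
        ring
    rw [h1]
    exact Submodule.sum_mem _ fun i _ => Submodule.sum_mem _ fun p _ =>
      Submodule.smul_mem _ _ (hunit i p)
  hR G hG a := by
    classical
    -- linear in `G`
    let Λ : (Fin c → MvPolynomial (Fin 3) Ω') →ₗ[Ω'] Ω' :=
      { toFun := fun G => eval (fun i => algebraMap Ω Ω' (y i)) (fu (fK Ω' f) (bcW Ω' W G) a) +
          eval (fun i => algebraMap Ω Ω' (y i)) (G a)
        map_add' := fun G H => by
          simp only [fu_eval, map_add, Pi.add_apply, add_mul, Finset.sum_add_distrib]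
          ring
        map_smul' := fun r G => by
          simp only [fu_eval, map_smul, Pi.smul_apply, smul_eq_mul, RingHom.id_apply, mul_add,
            Finset.mul_sum, mul_assoc, smul_eval] }
    suffices h : Λ G = 0 by
      exact eq_neg_of_add_eq_zero_left h
    rw [tup_expand G, map_sum]
    refine Finset.sum_eq_zero fun b _ => ?_
    rw [map_sum]
    refine Finset.sum_eq_zero fun I hI => ?_
    rw [map_smul, ← map_single (k := Ω) (Ω := Ω')]
    have hdeg : I.degree = d b := by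
      rw [Finsupp.degree_eq_weight_one]; exact hG b (mem_support_iff.1 hI)
    set e0 : Fin c → MvPolynomial (Fin 3) Ω := Pi.single b (monomial I 1) with he0
    have h2 := S.hR e0 (fun a' => by
      by_cases hb : a' = b
      · subst hb
        rw [he0, Pi.single_eq_same]
        exact isHomogeneous_monomial _ hdeg
      · rw [he0, Pi.single_eq_of_ne hb]
        exact isHomogeneous_zero _ _ _) a
    have h3 : Λ (mp Ω' e0) = 0 := by
      change eval (fun i => algebraMap Ω Ω' (y i)) (fu (fK Ω' f) (bcW Ω' W (mp Ω' e0)) a) +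
        eval (fun i => algebraMap Ω Ω' (y i)) (mp Ω' e0 a) = 0
      rw [bcW_mp, fu_fK, mp, mp, eval_alg, eval_alg, h2, map_neg, neg_add_cancel]
    change coeff I (G b) • Λ (mp Ω' e0) = 0
    rw [h3, smul_zero]
  hX a := by
    rw [fu_fK, mp, eval_alg, S.hX, map_zero]

end

end Pool.Agent.Edge.H53
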