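import Pool.Agent.Lib.MP_c7af3c_ag.EDGE.Iface
import Pool.Agent.Lib.MP_c7af3c_ag.EDGE.H53.Ext

/-!
# MP_c7af3c_ag, project EDGE, all c: the two remaining module statements (helper53, chair)
-/

set_option autoImplicit false

namespace Pool.Agent.Edge.H53

open MvPolynomial WithZero Pool.Agent.Gen Pool.Agent.Sharp Pool.Agent.Lines.H75 LangT1

/-- the basis of the linear forms which vanish at `y = (1, y1, y2)` -/
def kap {Ω : Type*} [Field Ω] (y : Fin 3 → Ω) : Fin 2 → Fin 3 → Ω :=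
  ![![-(y 1), 1, 0], ![-(y 2), 0, 1]]

/-- Module PASC (helper60): from the plane to the situation of `block`. -/
def PascStatement : Prop := OmegaStatement → ∀ (Ω : Type) [Field Ω] [CharZero Ω]
  (k : Subfield Ω) (n c e : ℕ) (d : Fin c → ℕ) (D : DSys Ω n c d) (x : Fin (n + 1) → Ω)
  (j0 : Fin (n + 1)) (ε : (Unit ⊕ (Fin e ⊕ Fin e)) ⊕ Fin c ≃ Fin (n + 1))
  (t : Fin 3 → Fin (n + 1)) (P : Fin 3 → Fin (n + 1) → Ω),
  1 ≤ e → n = 2 * e + c → (∀ m, 1 ≤ d m) → EdgeP k D x j0 e ε → PlaneP k D x j0 e ε t P →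
  ∃ (f : Fin (n + 1) → Fin c → MvPolynomial (Fin 3) k)
    (W : (Fin c → MvPolynomial (Fin 3) Ω) →ₗ[Ω] (Fin (n + 1) → Ω))
    (τ : Fin e → Fin 2 → (Fin (n + 1) → Ω) →ₗ[Ω] Ω),
    Sit0 d (fun i => x (t i)) f x W ∧
    (∀ p m, MvPolynomial.map (algebraMap k Ω) (f p m) = resP P (pderiv p (D.F m))) ∧
    (∀ s j, τ s j x = 0) ∧
    (∀ u : Fin (n + 1) → Ω, (∀ a, eval (fun i => x (t i)) (fu f u a) = 0) →
      (∀ s j, τ s j u = 0) → u ∈ Submodule.span Ω {x}) ∧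
    (∀ s (A : Fin c → MvPolynomial (Fin 3) k), IsB d A → ∃ r : k,
      (Matrix.of fun i j => τ s j (W (mulL (kap (fun i => x (t i)) i) (mp Ω A)))).det =
        algebraMap k Ω r) ∧
    (∀ s, ∃ A : Fin c → MvPolynomial (Fin 3) k, IsB d A ∧
      (Matrix.of fun i j => τ s j (W (mulL (kap (fun i => x (t i)) i) (mp Ω A)))).det ≠ 0)

/-- Module NQ (helper59): no conic over `k` through `y`, the forms of degree at most 2 vanish on
the plane, and there is a second tangent direction. -/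
def NqStatement : Prop := ∀ (Ω : Type) [Field Ω] [CharZero Ω]
  (k : Subfield Ω) (n c e : ℕ) (d : Fin c → ℕ) (D : DSys Ω n c d) (x : Fin (n + 1) → Ω)
  (j0 : Fin (n + 1)) (ε : (Unit ⊕ (Fin e ⊕ Fin e)) ⊕ Fin c ≃ Fin (n + 1))
  (t : Fin 3 → Fin (n + 1)) (P : Fin 3 → Fin (n + 1) → Ω),
  1 ≤ e → n = 2 * e + c → (∀ m, 1 ≤ d m) → ∑ m, d m = 3 * e + 1 + c →
  EdgeP k D x j0 e ε → PlaneP k D x j0 e ε t P →
  (∀ g : MvPolynomial (Fin 3) k, g.IsHomogeneous 2 →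
    eval (fun i => x (t i)) (MvPolynomial.map (algebraMap k Ω) g) = 0 → g = 0) ∧
  (∀ m, d m ≤ 2 → resP P (D.F m) = 0) ∧
  ∃ z : Fin 3 → Ω, (∀ r : Ω, z ≠ fun i => r * x (t i)) ∧
    ∀ m, ∑ i, z i * eval (fun i => x (t i)) (pderiv i (resP P (D.F m))) = 0

end Pool.Agent.Edge.H53
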