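import Pool.Agent.Lib.MP_c7af3c_ag.EDGE.H53.Ext

/-!
# EDGE for all c, part 6: one block over `k` relatively algebraically closed (helper53)
-/

set_option autoImplicit false

namespace Pool.Agent.Edge.H53

open MvPolynomial LangT1

section

variable {k Ω Ω' : Type*} [Field k] [Field Ω] [Field Ω'] [Algebra k Ω] [Algebra Ω Ω']
  [Algebra k Ω'] [IsScalarTower k Ω Ω'] {n c : ℕ} {d : Fin c → ℕ}

/-- no quadratic form over the algebraic closure of `k` vanishes at `y` -/
theorem nq_ext [CharZero k] (hrel : ∀ z : Ω, IsIntegral k z → z ∈ (algebraMap k Ω).range)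
    (y : Fin 3 → Ω)
    (NQ : ∀ g : MvPolynomial (Fin 3) k, g.IsHomogeneous 2 →
      eval y (MvPolynomial.map (algebraMap k Ω) g) = 0 → g = 0)
    (g : MvPolynomial (Fin 3) (algebraicClosure k Ω')) (hg : g.IsHomogeneous 2)
    (h0 : eval (fun i => algebraMap Ω Ω' (y i))
      (MvPolynomial.map (algebraMap (algebraicClosure k Ω') Ω') g) = 0) : g = 0 := by
  classical
  -- the monomials of degree 2 at `y` are independent
  have hind : LinearIndependent k (fun I : {I : Fin 3 →₀ ℕ // I.degree = 2} =>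
      ∏ i, y i ^ (I.1 i)) := by
    rw [linearIndependent_iff']
    intro s c hc I hI
    have h1 := NQ (∑ I ∈ s, monomial I.1 (c I)) (by
      refine IsHomogeneous.sum _ _ _ fun I _ => ?_
      exact isHomogeneous_monomial _ I.2) (by
      rw [← hc, map_sum, map_sum]
      refine Finset.sum_congr rfl fun I _ => ?_
      rw [map_monomial, eval_monomial, Algebra.smul_def, Finsupp.prod_fintype]
      intro i; exact pow_zero _)
    have h2 := congrArg (coeff I.1) h1
    rw [coeff_sum, coeff_zero] at h2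
    rw [Finset.sum_eq_single I] at h2
    · rwa [coeff_monomial, if_pos rfl] at h2
    · intro J _ hJ
      rw [coeff_monomial, if_neg]
      intro h; exact hJ (Subtype.ext h)
    · intro h; exact absurd hI h
  have hK := lin_disj (Ω' := Ω') hrel _ hind
  rw [linearIndependent_iff'] at hK
  have hdeg : ∀ I ∈ g.support, I.degree = 2 := by
    intro I hI
    rw [Finsupp.degree_eq_weight_one]; exact hg (mem_support_iff.1 hI)
  refine MvPolynomial.ext _ _ fun I => ?_
  rw [coeff_zero]
  by_cases hI : I ∈ g.support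
  · refine hK (g.support.attach.image fun I => (⟨I.1, hdeg I.1 I.2⟩ :
      {I : Fin 3 →₀ ℕ // I.degree = 2})) (fun I => coeff I.1 g) ?_ ⟨I, hdeg I hI⟩ ?_
    · rw [Finset.sum_image]
      · rw [← h0]
        conv_rhs => rw [g.as_sum, map_sum, map_sum]
        rw [← Finset.sum_attach g.support]
        refine Finset.sum_congr rfl fun J _ => ?_
        rw [map_monomial, eval_monomial, Finsupp.prod_fintype]
        · rw [Algebra.smul_def, map_prod]
          congr 1
          refine Finset.prod_congr rfl fun i _ => ?_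
          rw [map_pow]
        · intro i; exact pow_zero _
      · intro a _ b _ hab
        have := congrArg Subtype.val hab
        exact Subtype.ext this
    · rw [Finset.mem_image]
      exact ⟨⟨I, hI⟩, Finset.mem_attach _ _, rfl⟩
  · exact notMem_support_iff.1 hI

/-- no quadratic forms: no quadratic parametrisation -/
theorem noCon_of_nq {K : Type*} [Field K] [Algebra K Ω'] (y : Fin 3 → Ω')
    (NQ : ∀ g : MvPolynomial (Fin 3) K, g.IsHomogeneous 2 →
      eval y (MvPolynomial.map (algebraMap K Ω') g) = 0 → g = 0) : NoCon K y := by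
  intro z hz s t hy
  obtain ⟨P, hP, hX⟩ := dual_basis z hz
  -- `lin (P b)` at `z a` is `δ`
  have hev : ∀ b, ∑ i, algebraMap K Ω' (P b i) * y i = s * ![1, t, t ^ 2] b := by
    intro b
    have e : ∀ a, ∑ i, algebraMap K Ω' (P b i) * algebraMap K Ω' (z a i) =
        if a = b then 1 else 0 := by
      intro a
      have h := congrArg (algebraMap K Ω') (hP a b)
      rw [map_sum] at h
      simp only [map_mul] at h
      rw [show (if a = b then (1 : Ω') else 0) = algebraMap K Ω' (if a = b then 1 else 0) by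
        split_ifs <;> simp, ← h]
      refine Finset.sum_congr rfl fun i _ => mul_comm _ _
    have h1 : ∑ i, algebraMap K Ω' (P b i) * y i =
        s * ∑ a, ![1, t, t ^ 2] a * ∑ i, algebraMap K Ω' (P b i) * algebraMap K Ω' (z a i) := by
      rw [hy]
      simp only [Fin.sum_univ_three, Matrix.cons_val_zero, Matrix.cons_val_one,
        Matrix.cons_val_two, Matrix.tail_cons, Matrix.head_cons]
      ring
    rw [h1]
    simp only [e]
    congr 1
    simp
  have h2 := NQ (lin (P 0) * lin (P 2) - lin (P 1) * lin (P 1)) (by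
    have h0 := (lin_homogeneous (P 0)).mul (lin_homogeneous (P 2))
    have h1 := (lin_homogeneous (P 1)).mul (lin_homogeneous (P 1))
    exact h0.sub h1) (by
    rw [map_sub, map_mul, map_mul, map_lin, map_lin, map_lin, map_sub, map_mul, map_mul,
      eval_lin, eval_lin, eval_lin, hev, hev, hev]
    simp only [Matrix.cons_val_zero, Matrix.cons_val_one,
        Matrix.cons_val_two, Matrix.tail_cons, Matrix.head_cons]
    ring)
  have h3 := congrArg (eval (z 1)) h2
  rw [map_sub, map_mul, map_mul, eval_lin, eval_lin, eval_lin, map_zero] at h3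
  have e : ∀ b, ∑ i, P b i * z 1 i = if (1 : Fin 3) = b then 1 else 0 := by
    intro b
    rw [← hP 1 b]
    refine Finset.sum_congr rfl fun i _ => mul_comm _ _
  rw [e, e, e] at h3
  simp at h3

end

section

variable {k Ω : Type*} [Field k] [Field Ω] [Algebra k Ω] {n c : ℕ} {d : Fin c → ℕ}

/-- One block, for `k` relatively algebraically closed in `Ω`. -/
theorem block0 [CharZero k] [CharZero Ω]
    (hrel : ∀ z : Ω, IsIntegral k z → z ∈ (algebraMap k Ω).range)
    {y : Fin 3 → Ω} {f : Fin (n + 1) → Fin c → MvPolynomial (Fin 3) k}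
    {x : Fin (n + 1) → Ω} {W : (Fin c → MvPolynomial (Fin 3) Ω) →ₗ[Ω] (Fin (n + 1) → Ω)}
    (S : Sit0 d y f x W)
    (NQ : ∀ g : MvPolynomial (Fin 3) k, g.IsHomogeneous 2 →
      eval y (MvPolynomial.map (algebraMap k Ω) g) = 0 → g = 0)
    (κ : Fin 2 → Fin 3 → Ω) (orth : ∀ i, ∑ c, κ i c * y c = 0) (ind : LinearIndependent Ω κ)
    (τ : Fin 2 → (Fin (n + 1) → Ω) →ₗ[Ω] Ω) (hx : ∀ j, τ j x = 0)
    (hq : ∀ A : Fin c → MvPolynomial (Fin 3) k, IsB d A → ∃ r : k,
      (Matrix.of fun i j => τ j (W (mulL (κ i) (mp Ω A)))).det = algebraMap k Ω r)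
    (hne : ∃ A : Fin c → MvPolynomial (Fin 3) k, IsB d A ∧
      (Matrix.of fun i j => τ j (W (mulL (κ i) (mp Ω A)))).det ≠ 0)
    (P : Fin 3 → Fin (n + 1) → k) (hxP : ∀ p, x p = ∑ i, y i * algebraMap k Ω (P i p))
    (hP : ∀ i a, d a ≤ 2 → ∑ p, C (P i p) * f p a = 0)
    (z : Fin 3 → Ω)
    (hz : ∀ a, eval y (fu f (fun p => ∑ i, z i * algebraMap k Ω (P i p)) a) = 0) (j : Fin 2) :
    τ j (fun p => ∑ i, z i * algebraMap k Ω (P i p)) = 0 := by
  classical
  let Ω' := AlgebraicClosure Ω
  let K := algebraicClosure k Ω'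
  have hKc : IsAlgClosed K := (algebraicClosure.isAlgClosure k Ω').isAlgClosed
  have : CharZero Ω' := charZero_of_injective_algebraMap (algebraMap Ω Ω').injective
  have : CharZero K := charZero_of_injective_algebraMap (algebraMap k K).injective
  have S' : Sit0 d (fun i => algebraMap Ω Ω' (y i)) (fK Ω' f)
      (fun p => algebraMap Ω Ω' (x p)) (bcW Ω' W) := S.ext hrel
  have NC : NoCon K (fun i => algebraMap Ω Ω' (y i)) :=
    noCon_of_nq _ fun g hg h0 => nq_ext (Ω' := Ω') hrel y NQ g hg h0
  have htow : ∀ r : k, algebraMap K Ω' (algebraMap k K r) = algebraMap Ω Ω' (algebraMap k Ω r) := by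
    intro r
    rw [← IsScalarTower.algebraMap_apply, ← IsScalarTower.algebraMap_apply]
  set κ' : Fin 2 → Fin 3 → Ω' := fun i c => algebraMap Ω Ω' (κ i c) with hκ'
  have orth' : ∀ i, ∑ c, κ' i c * algebraMap Ω Ω' (y c) = 0 := by
    intro i
    have h := congrArg (algebraMap Ω Ω') (orth i)
    rw [map_sum, map_zero] at h
    rw [← h]
    refine Finset.sum_congr rfl fun c _ => ?_
    rw [map_mul]
  have ind' : LinearIndependent Ω' κ' := by
    -- a 2 x 2 minor is not zero
    obtain ⟨s, hs⟩ := cross_prop y κ orth ind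
    have hs0 : y ≠ 0 := fun h => S.hy.ne_zero 0 (congrFun h 0)
    rw [Fintype.linearIndependent_iff]
    intro g hg
    rw [Fin.sum_univ_two] at hg
    have h0 := congrFun hg 0
    have h1 := congrFun hg 1
    have h2 := congrFun hg 2
    simp only [Pi.add_apply, Pi.smul_apply, smul_eq_mul, Pi.zero_apply, hκ'] at h0 h1 h2
    obtain ⟨i, hi⟩ := Function.ne_iff.1 hs0
    have hi' : y i ≠ 0 := hi
    have hm : ∃ a b : Fin 3, κ 0 a * κ 1 b - κ 0 b * κ 1 a ≠ 0 := by
      by_contra hcon
      push Not at hcon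
      apply hi'
      rw [hs, Pi.smul_apply, smul_eq_mul]
      fin_cases i
      · simp only [Fin.zero_eta, Matrix.cons_val_zero]; rw [hcon 1 2, mul_zero]
      · simp only [Fin.mk_one, Matrix.cons_val_one, Matrix.cons_val_zero]; rw [hcon 2 0, mul_zero]
      · simp only [Fin.reduceFinMk, Matrix.cons_val]; rw [hcon 0 1, mul_zero]
    obtain ⟨a, b, hab⟩ := hm
    have hab' : algebraMap Ω Ω' (κ 0 a * κ 1 b - κ 0 b * κ 1 a) ≠ 0 := by
      rwa [Ne, map_eq_zero]
    rw [map_sub, map_mul, map_mul] at hab'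
    have ha := congrFun hg a
    have hb := congrFun hg b
    simp only [Pi.add_apply, Pi.smul_apply, smul_eq_mul, Pi.zero_apply, hκ'] at ha hb
    have e0 : g 0 * (algebraMap Ω Ω' (κ 0 a) * algebraMap Ω Ω' (κ 1 b) -
        algebraMap Ω Ω' (κ 0 b) * algebraMap Ω Ω' (κ 1 a)) = 0 := by
      linear_combination algebraMap Ω Ω' (κ 1 b) * ha - algebraMap Ω Ω' (κ 1 a) * hb
    have e1 : g 1 * (algebraMap Ω Ω' (κ 0 a) * algebraMap Ω Ω' (κ 1 b) -
        algebraMap Ω Ω' (κ 0 b) * algebraMap Ω Ω' (κ 1 a)) = 0 := by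
      linear_combination algebraMap Ω Ω' (κ 0 a) * hb - algebraMap Ω Ω' (κ 0 b) * ha
    intro i
    fin_cases i
    · exact (mul_eq_zero.1 e0).resolve_right hab'
    · exact (mul_eq_zero.1 e1).resolve_right hab'
  -- the matrices
  have hΦ : ∀ A : Fin c → MvPolynomial (Fin 3) k,
      (Matrix.of fun i j => bcT Ω' (τ j) (bcW Ω' W (mulL (κ' i)
        (mp Ω' (mp K A : Fin c → MvPolynomial (Fin 3) K))))) =
      ((Matrix.of fun i j => τ j (W (mulL (κ i) (mp Ω A)))).map (algebraMap Ω Ω')) := by
    intro A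
    have e : (mp Ω' (mp K A : Fin c → MvPolynomial (Fin 3) K)) = mp Ω' (mp Ω A) := by
      funext a
      simp only [mp, map_map]
      congr 1
    ext i j
    simp only [Matrix.of_apply, Matrix.map_apply]
    rw [e, hκ', ← mp_mulL, bcW_mp, bcT_alg]
  have hdetk : ∀ A : Fin c → MvPolynomial (Fin 3) k, IsB d A → ∃ r : K,
      (Matrix.of fun i j => bcT Ω' (τ j) (bcW Ω' W (mulL (κ' i)
        (mp Ω' (mp K A : Fin c → MvPolynomial (Fin 3) K))))).det = algebraMap K Ω' r := by
    intro A hA
    obtain ⟨r, hr⟩ := hq A hA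
    refine ⟨algebraMap k K r, ?_⟩
    rw [hΦ, htow, ← hr, RingHom.map_det]
    rfl
  -- rationality over `K`
  have hdetK : ∀ A : BB K d, ∃ r : K, (PhiB (k := K) d (bcW Ω' W) κ'
      (fun j => bcT Ω' (τ j)) A).det = algebraMap K Ω' r := by
    intro A
    let M : (Fin c → MvPolynomial (Fin 3) K) → Matrix (Fin 2) (Fin 2) Ω' := fun B =>
      Matrix.of fun i j => bcT Ω' (τ j) (bcW Ω' W (mulL (κ' i) (mp Ω' B)))
    have hMadd : ∀ B C, M (B + C) = M B + M C := by
      intro B C
      ext i j
      simp only [M, mp_add, map_add, Matrix.of_apply, Matrix.add_apply]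
    have hMsmul : ∀ (r : K) B, M (r • B) = algebraMap K Ω' r • M B := by
      intro r B
      ext i j
      simp only [M, mp_smul, map_smul, Matrix.of_apply, Matrix.smul_apply, smul_eq_mul]
    have hM0 : M 0 = 0 := by
      have h := hMsmul 0 0
      rwa [zero_smul, map_zero, zero_smul] at h
    have hMsum : ∀ (s : Finset (Σ _ : Fin c, Fin 3 →₀ ℕ)) (B : (Σ _ : Fin c, Fin 3 →₀ ℕ) →
        Fin c → MvPolynomial (Fin 3) K), M (∑ i ∈ s, B i) = ∑ i ∈ s, M (B i) := by
      intro s B
      induction s using Finset.induction_on with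
      | empty => simpa using hM0
      | insert i s hi ih => rw [Finset.sum_insert hi, Finset.sum_insert hi, hMadd, ih]
    let E : (Σ _ : Fin c, Fin 3 →₀ ℕ) → Fin c → MvPolynomial (Fin 3) k := fun p =>
      Pi.single p.1 (monomial p.2 1)
    have hE : ∀ p, mp K (E p) = (Pi.single p.1 (monomial p.2 (1 : K)) :
        Fin c → MvPolynomial (Fin 3) K) := fun p => map_single (k := k) (Ω := K) p.1 p.2
    set s : Finset (Σ _ : Fin c, Fin 3 →₀ ℕ) :=
      Finset.univ.sigma fun a => ((A : Fin c → MvPolynomial (Fin 3) K) a).support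
    have hA : (A : Fin c → MvPolynomial (Fin 3) K) = ∑ p ∈ s,
        coeff p.2 ((A : Fin c → MvPolynomial (Fin 3) K) p.1) • mp K (E p) := by
      conv_lhs => rw [tup_expand (A : Fin c → MvPolynomial (Fin 3) K)]
      rw [Finset.sum_sigma]
      refine Finset.sum_congr rfl fun a _ => Finset.sum_congr rfl fun I _ => ?_
      rw [hE]
    have hEB : ∀ p ∈ s, IsB d (E p) := by
      intro p hp
      refine single_isB p.1 p.2 ?_
      rw [Finsupp.degree_eq_weight_one]
      exact A.2 p.1 (mem_support_iff.1 (Finset.mem_sigma.1 hp).2)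
    have hpol : ∀ p q, ∃ r : K, p ∈ s → q ∈ s →
        polD (M (mp K (E p))) (M (mp K (E q))) = algebraMap K Ω' r := by
      intro p q
      by_cases hp : p ∈ s
      · by_cases hq : q ∈ s
        · obtain ⟨r1, h1⟩ := hdetk (E p) (hEB p hp)
          obtain ⟨r2, h2⟩ := hdetk (E q) (hEB q hq)
          obtain ⟨r3, h3⟩ := hdetk (E p + E q) (fun a => (hEB p hp a).add (hEB q hq a))
          refine ⟨r3 - r1 - r2, fun _ _ => ?_⟩
          rw [polD_eq, ← hMadd, ← mp_add, map_sub, map_sub, ← h1, ← h2, ← h3]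
        · exact ⟨0, fun _ h => absurd h hq⟩
      · exact ⟨0, fun h => absurd h hp⟩
    choose r hr using hpol
    have hfin : 2 * (M A).det = algebraMap K Ω' (∑ p ∈ s, ∑ q ∈ s,
        coeff p.2 ((A : Fin c → MvPolynomial (Fin 3) K) p.1) *
        coeff q.2 ((A : Fin c → MvPolynomial (Fin 3) K) q.1) * r p q) := by
      rw [two_det]
      have h1 : M A = ∑ p ∈ s, algebraMap K Ω'
          (coeff p.2 ((A : Fin c → MvPolynomial (Fin 3) K) p.1)) • M (mp K (E p)) := by
        conv_lhs => rw [hA, hMsum]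
        refine Finset.sum_congr rfl fun p _ => ?_
        rw [hMsmul]
      rw [h1, polD_sum, map_sum]
      refine Finset.sum_congr rfl fun p hp => ?_
      rw [map_sum]
      refine Finset.sum_congr rfl fun q hq => ?_
      rw [hr p q hp hq, map_mul, map_mul]
    refine ⟨2⁻¹ * (∑ p ∈ s, ∑ q ∈ s,
        coeff p.2 ((A : Fin c → MvPolynomial (Fin 3) K) p.1) *
        coeff q.2 ((A : Fin c → MvPolynomial (Fin 3) K) q.1) * r p q), ?_⟩
    rw [map_mul, ← hfin, map_inv₀, map_ofNat]
    have h2 : (2 : Ω') ≠ 0 := two_ne_zero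
    rw [← mul_assoc, inv_mul_cancel₀ h2, one_mul]
    rfl
  choose q hq' using hdetK
  obtain ⟨A0, hA0, hA0'⟩ := hne
  have h1 := block (k := K) S'.toSit NC κ' orth' ind' (fun j => bcT Ω' (τ j))
    (fun j => by rw [bcT_alg, hx, map_zero]) 1 q (fun A => by rw [hq', one_mul])
    ⟨mp K A0, hA0.map⟩ (by
      change (Matrix.of fun i j => bcT Ω' (τ j) (bcW Ω' W (mulL (κ' i)
        (mp Ω' (mp K A0 : Fin c → MvPolynomial (Fin 3) K))))).det ≠ 0
      rw [hΦ]
      have : ((Matrix.of fun i j => τ j (W (mulL (κ i) (mp Ω A0)))).map (algebraMap Ω Ω')).det =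
          algebraMap Ω Ω' (Matrix.of fun i j => τ j (W (mulL (κ i) (mp Ω A0)))).det := by
        rw [RingHom.map_det]; rfl
      rw [this, Ne, map_eq_zero]
      exact hA0') (fun i p => algebraMap k K (P i p)) (fun p => by
      rw [hxP, map_sum]
      refine Finset.sum_congr rfl fun i _ => ?_
      rw [map_mul, htow]) (fun i a ha => by
      have h := congrArg (MvPolynomial.map (algebraMap k K)) (hP i a ha)
      rw [map_sum, map_zero] at h
      rw [← h]
      refine Finset.sum_congr rfl fun p _ => ?_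
      rw [map_mul, map_C]
      rfl) (fun i => algebraMap Ω Ω' (z i)) (by
      have e : (fun p => ∑ i, algebraMap Ω Ω' (z i) * algebraMap K Ω' (algebraMap k K (P i p))) =
          fun p => algebraMap Ω Ω' (∑ i, z i * algebraMap k Ω (P i p)) := by
        funext p
        rw [map_sum]
        refine Finset.sum_congr rfl fun i _ => ?_
        rw [map_mul, htow]
      intro a
      rw [e, fu_fK, mp, eval_alg, hz, map_zero]) j
  have e : (fun p => ∑ i, algebraMap Ω Ω' (z i) * algebraMap K Ω' (algebraMap k K (P i p))) =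
      fun p => algebraMap Ω Ω' (∑ i, z i * algebraMap k Ω (P i p)) := by
    funext p
    rw [map_sum]
    refine Finset.sum_congr rfl fun i _ => ?_
    rw [map_mul, htow]
  rw [e, bcT_alg, map_eq_zero] at h1
  exact h1

end

end Pool.Agent.Edge.H53
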