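import Pool.Agent.Lib.MP_c7af3c_ag.EDGE.H53.IfaceC
import Pool.Agent.Lib.MP_c7af3c_ag.EDGE.H53.Block0
import Pool.Agent.Lib.MP_c7af3c_ag.EDGE.H65.NoFactor
import Pool.Agent.Lib.MP_c7af3c_ag.EDGE.H19.Asm

/-!
# EDGE for all c, part 7: assembly (helper53)
-/

set_option autoImplicit false

namespace Pool.Agent.Edge.H53

open MvPolynomial WithZero Pool.Agent.Gen Pool.Agent.Sharp Pool.Agent.Lines.H75 LangT1

theorem pderiv_resP {Ω : Type} [Field Ω] {n : ℕ} (P : Fin 3 → Fin (n + 1) → Ω) (i : Fin 3)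
    (F : MvPolynomial (Fin (n + 1)) Ω) :
    pderiv i (resP P F) = ∑ p, C (P i p) * resP P (pderiv p F) :=
  H65.pderiv_ssub P i F

theorem kap_orth {Ω : Type*} [Field Ω] (y : Fin 3 → Ω) (hy : y 0 = 1) (i : Fin 2) :
    ∑ c, kap y i c * y c = 0 := by
  rw [Fin.sum_univ_three, hy]
  fin_cases i <;> simp [kap]

theorem kap_ind {Ω : Type*} [Field Ω] (y : Fin 3 → Ω) : LinearIndependent Ω (kap y) := by
  rw [Fintype.linearIndependent_iff]
  intro g hg
  rw [Fin.sum_univ_two] at hg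
  have h1 := congrFun hg 1
  have h2 := congrFun hg 2
  simp [kap] at h1 h2
  intro i
  fin_cases i
  · exact h1
  · exact h2

/-- the situation on the plane is contradictory -/
theorem planeFalse (hOM : OmegaStatement) (hPA : PascStatement) (hNQ : NqStatement)
    (Ω : Type) [Field Ω] [CharZero Ω]
    (k : Subfield Ω) (n c e : ℕ) (d : Fin c → ℕ) (D : DSys Ω n c d) (x : Fin (n + 1) → Ω)
    (j0 : Fin (n + 1)) (ε : (Unit ⊕ (Fin e ⊕ Fin e)) ⊕ Fin c ≃ Fin (n + 1))
    (t : Fin 3 → Fin (n + 1)) (P : Fin 3 → Fin (n + 1) → Ω)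
    (he : 1 ≤ e) (hn : n = 2 * e + c) (hd : ∀ m, 1 ≤ d m) (hs : ∑ m, d m = 3 * e + 1 + c)
    (hE : EdgeP k D x j0 e ε) (hP : PlaneP k D x j0 e ε t P) : False := by
  classical
  obtain ⟨f, W, τ, S, hf, hτx, hτU, hτq, hτn⟩ := hPA hOM Ω k n c e d D x j0 ε t P he hn hd hE hP
  obtain ⟨NQ, hle, z, hz1, hz2⟩ := hNQ Ω k n c e d D x j0 ε t P he hn hd hs hE hP
  set y : Fin 3 → Ω := fun i => x (t i) with hy
  have hy0 : y 0 = 1 := by rw [hy]; change x (t 0) = 1; rw [hP.t0]; exact hE.hj0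
  have : CharZero k := charZero_of_injective_algebraMap (R := ℚ) (A := k)
    (algebraMap ℚ k).injective
  have hrel : ∀ z : Ω, IsIntegral k z → z ∈ (algebraMap k Ω).range := by
    intro z hz
    obtain ⟨p, hp, hp0⟩ := hz
    have h1 := hE.kalg z (p.map (algebraMap k Ω)) (hp.map _).ne_zero (fun i => by
      rw [Polynomial.coeff_map]; exact (p.coeff i).2) (by rw [Polynomial.eval_map]; exact hp0)
    exact ⟨⟨z, h1⟩, rfl⟩
  let P' : Fin 3 → Fin (n + 1) → k := fun i q => ⟨P i q, hP.Pk i q⟩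
  have hP' : ∀ i q, algebraMap k Ω (P' i q) = P i q := fun i q => rfl
  have hxP : ∀ p, x p = ∑ i, y i * algebraMap k Ω (P' i p) := by
    intro p
    rw [hP.xP p]
    refine Finset.sum_congr rfl fun i _ => ?_
    rw [hP', mul_comm]
  have hder : ∀ i a, MvPolynomial.map (algebraMap k Ω) (∑ p, C (P' i p) * f p a) =
      pderiv i (resP P (D.F a)) := by
    intro i a
    rw [pderiv_resP, map_sum]
    refine Finset.sum_congr rfl fun p _ => ?_
    rw [map_mul, map_C, hf, hP']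
  have hPz : ∀ i a, d a ≤ 2 → ∑ p, C (P' i p) * f p a = 0 := by
    intro i a ha
    have h := hder i a
    rw [hle a ha, map_zero] at h
    exact map_injective _ (algebraMap k Ω).injective (by rw [h, map_zero])
  have hz3 : ∀ a, eval y (fu f (fun p => ∑ i, z i * algebraMap k Ω (P' i p)) a) = 0 := by
    intro a
    rw [fu_eval, ← hz2 a]
    have h : ∀ i, eval y (pderiv i (resP P (D.F a))) =
        ∑ p, P i p * eval y (MvPolynomial.map (algebraMap k Ω) (f p a)) := by
      intro i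
      rw [← hder i a, map_sum, map_sum]
      refine Finset.sum_congr rfl fun p _ => ?_
      rw [map_mul, map_mul, map_C, eval_C, hP']
    simp only [h, Finset.mul_sum, Finset.sum_mul, hP']
    rw [Finset.sum_comm]
    refine Finset.sum_congr rfl fun i _ => Finset.sum_congr rfl fun p _ => by ring
  have hall : ∀ s j, τ s j (fun p => ∑ i, z i * algebraMap k Ω (P' i p)) = 0 := fun s j =>
    block0 hrel S NQ (kap y) (kap_orth y hy0) (kap_ind y) (τ s) (hτx s) (hτq s) (hτn s) P' hxP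
      hPz z hz3 j
  obtain ⟨r, hr⟩ := Submodule.mem_span_singleton.1 (hτU _ hz3 hall)
  refine hz1 r ?_
  funext i
  have h1 := congrFun hr (t i)
  rw [Pi.smul_apply, smul_eq_mul] at h1
  rw [h1]
  simp only [hP', hP.Pt]
  simp

/-- Module ASMC: the height inequality in the borderline case `n - c = 2 e`, all `c`. -/
theorem asmC (hPA : PascStatement) (hNQ : NqStatement) : DichStatement → TauStatement →
    SblStatement → UltraStatement → NlStatement → PlemStatement → OmegaStatement →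
    PlaneStatement → ∀ (n c e : ℕ) (d : Fin c → ℕ) (j0 : Fin (n + 1)), 1 ≤ e → (∀ m, 1 ≤ d m) →
    2 * n + 1 = c + ∑ m, d m + e → n = 2 * e + c →
    (∃ M : ℕ, (∀ m, d m ≤ M) ∧ ∀ q r, q + 1 ≤ e → r + 2 * n = c + ∑ m, d m + q + 2 →
      n + 2 + q + r * M ≤ ∑ m, d m * (d m + 1) / 2) → HBE n c d j0 := by
  intro hD hT hS hU hNL hPL hOM hPLANE n c e d j0 he hd hs hn hnum
  by_contra hneg
  have ε : (Unit ⊕ (Fin e ⊕ Fin e)) ⊕ Fin c ≃ Fin (n + 1) := by
    refine Fintype.equivOfCardEq ?_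
    simp only [Fintype.card_sum, Fintype.card_fin, Fintype.card_unit]
    omega
  obtain ⟨Ω, _, _, k, D, x, hE⟩ := hU hD hT hS n c e d j0 he hd hs hn hnum ε hneg
  obtain ⟨t, P, hP⟩ := hPLANE hNL hPL hOM Ω k n c e d D x j0 ε he hn hE
  exact planeFalse hOM hPA hNQ Ω k n c e d D x j0 ε t P he hn hd (by omega) hE hP

end Pool.Agent.Edge.H53
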