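import Pool.Agent.Lib.MP_c7af3c_ag.EDGE.H53.CaseM

/-!
# EDGE for all c, part 4: one block (helper53)
-/

set_option autoImplicit false

namespace Pool.Agent.Edge.H53

open MvPolynomial LangT1

section

variable {k Ω : Type*} [Field k] [Field Ω] [Algebra k Ω] {n c : ℕ} {d : Fin c → ℕ}

/-- tuples of forms of degrees `d a - 1`, as a subspace -/
noncomputable def BB (k : Type*) [Field k] (d : Fin c → ℕ) :
    Submodule k (Fin c → MvPolynomial (Fin 3) k) where
  carrier := {A | IsB d A}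
  add_mem' hA hB := fun a => (hA a).add (hB a)
  zero_mem' := fun a => isHomogeneous_zero _ _ _
  smul_mem' r A hA := fun a => by
    have h := (isHomogeneous_C (Fin 3) r).mul (hA a)
    rw [zero_add] at h
    change (r • A a).IsHomogeneous _
    rwa [smul_eq_C_mul]

variable {y : Fin 3 → Ω} {f : Fin (n + 1) → Fin c → MvPolynomial (Fin 3) k}
  {x : Fin (n + 1) → Ω} {W : (Fin c → MvPolynomial (Fin 3) Ω) →ₗ[Ω] (Fin (n + 1) → Ω)}

theorem mp_add (A B : Fin c → MvPolynomial (Fin 3) k) : mp Ω (A + B) = mp Ω A + mp Ω B := by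
  funext a; simp [mp]

theorem mp_smul (r : k) (A : Fin c → MvPolynomial (Fin 3) k) :
    mp Ω (r • A) = (algebraMap k Ω r) • mp Ω A := by
  funext a
  simp only [mp, Pi.smul_apply]
  rw [smul_eq_C_mul, map_mul, map_C, ← smul_eq_C_mul]

/-- the matrices of one block -/
noncomputable def PhiB (d : Fin c → ℕ)
    (W : (Fin c → MvPolynomial (Fin 3) Ω) →ₗ[Ω] (Fin (n + 1) → Ω))
    (κ : Fin 2 → Fin 3 → Ω) (τ : Fin 2 → (Fin (n + 1) → Ω) →ₗ[Ω] Ω) :
    BB k d →ₗ[k] Matrix (Fin 2) (Fin 2) Ω where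
  toFun A := Matrix.of fun i j => τ j (W (mulL (κ i) (mp Ω (A : Fin c → MvPolynomial (Fin 3) k))))
  map_add' A B := by
    ext i j
    simp only [Submodule.coe_add, mp_add, map_add, Matrix.of_apply, Matrix.add_apply]
  map_smul' r A := by
    ext i j
    simp only [Submodule.coe_smul, mp_smul, map_smul, Matrix.of_apply, Matrix.smul_apply,
      RingHom.id_apply, smul_eq_mul]
    rw [Algebra.smul_def]

/-- One block: the components of the tangent directions of the plane vanish. -/
theorem block [CharZero k] [CharZero Ω] [IsAlgClosed k] (S : Sit d y f x W) (NC : NoCon k y)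
    (κ : Fin 2 → Fin 3 → Ω) (orth : ∀ i, ∑ c, κ i c * y c = 0) (ind : LinearIndependent Ω κ)
    (τ : Fin 2 → (Fin (n + 1) → Ω) →ₗ[Ω] Ω) (hx : ∀ j, τ j x = 0)
    (c0 : Ω) (q : BB k d → k)
    (hq : ∀ A, (PhiB (k := k) d W κ τ A).det = c0 * algebraMap k Ω (q A))
    (A0 : BB k d) (hA0 : (PhiB (k := k) d W κ τ A0).det ≠ 0)
    (P : Fin 3 → Fin (n + 1) → k) (hxP : ∀ p, x p = ∑ i, y i * algebraMap k Ω (P i p))
    (hP : ∀ i a, d a ≤ 2 → ∑ p, C (P i p) * f p a = 0)
    (z : Fin 3 → Ω)
    (hz : ∀ a, eval y (fu f (fun p => ∑ i, z i * algebraMap k Ω (P i p)) a) = 0) (j : Fin 2) :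
    τ j (fun p => ∑ i, z i * algebraMap k Ω (P i p)) = 0 := by
  classical
  obtain ⟨P', Q', hP', hQ', hcase⟩ := mat_lemma (PhiB (k := k) d W κ τ) c0 q hq A0 hA0
  set κ' : Fin 2 → Fin 3 → Ω := fun i => ∑ a, P' i a • κ a with hκ'
  set τ' : Fin 2 → (Fin (n + 1) → Ω) →ₗ[Ω] Ω := fun j => ∑ b, Q' b j • τ b with hτ'
  have hval : ∀ (A : BB k d) i j, (P' * PhiB (k := k) d W κ τ A * Q') i j =
      τ' j (W (mulL (κ' i) (mp Ω (A : Fin c → MvPolynomial (Fin 3) k)))) := by
    intro A i j
    rw [Matrix.mul_apply, hκ', hτ', LinearMap.sum_apply]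
    refine Finset.sum_congr rfl fun b _ => ?_
    rw [Matrix.mul_apply, LinearMap.smul_apply, mulL_sum, map_sum, map_sum, smul_eq_mul, mul_comm]
    congr 1
    refine Finset.sum_congr rfl fun a _ => ?_
    rw [mulL_smul, map_smul, map_smul, smul_eq_mul]
    rfl
  have orth' : ∀ i, ∑ c, κ' i c * y c = 0 := by
    intro i
    have e : ∀ c, κ' i c * y c = ∑ a, P' i a * (κ a c * y c) := by
      intro c
      simp only [hκ', Finset.sum_apply, Pi.smul_apply, smul_eq_mul, Finset.sum_mul, mul_assoc]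
    simp only [e]
    rw [Finset.sum_comm]
    refine Finset.sum_eq_zero fun a _ => ?_
    rw [← Finset.mul_sum, orth, mul_zero]
  have ind' : LinearIndependent Ω κ' := by
    rw [Fintype.linearIndependent_iff] at ind ⊢
    intro g hg
    have h1 := ind (fun a => ∑ i, g i * P' i a) (by
      rw [← hg]
      simp only [hκ', Finset.smul_sum, Finset.sum_smul, smul_smul]
      rw [Finset.sum_comm])
    have h2 : Matrix.vecMul g P' = 0 := by
      funext a
      exact h1 a
    have h3 : g = Matrix.vecMul (Matrix.vecMul g P') P'⁻¹ := by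
      rw [Matrix.vecMul_vecMul, Matrix.mul_nonsing_inv _ hP', Matrix.vecMul_one]
    rw [h2, Matrix.zero_vecMul] at h3
    exact fun i => congrFun h3 i
  have hx' : ∀ j, τ' j x = 0 := by
    intro j
    rw [hτ', LinearMap.sum_apply]
    refine Finset.sum_eq_zero fun b _ => ?_
    rw [LinearMap.smul_apply, hx, smul_zero]
  rcases hcase with ⟨hM, -⟩ | ⟨hT, hK, hne⟩
  · have h1 := caseM S NC κ' orth' ind' τ' hx' (fun A hA i j => by
      have h := hM ⟨A, hA⟩ i j
      rw [hval] at h
      exact h) P hxP hP z hz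
    -- invert `Q'`
    set u : Fin (n + 1) → Ω := fun p => ∑ i, z i * algebraMap k Ω (P i p)
    have h2 : Matrix.vecMul (fun b => τ b u) Q' = 0 := by
      funext j
      have h3 := h1 j
      rw [hτ', LinearMap.sum_apply] at h3
      simp only [LinearMap.smul_apply, smul_eq_mul] at h3
      rw [Matrix.vecMul, dotProduct, Pi.zero_apply, ← h3]
      refine Finset.sum_congr rfl fun b _ => mul_comm _ _
    have h3 : (fun b => τ b u) = Matrix.vecMul (Matrix.vecMul (fun b => τ b u) Q') Q'⁻¹ := by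
      rw [Matrix.vecMul_vecMul, Matrix.mul_nonsing_inv _ hQ', Matrix.vecMul_one]
    rw [h2, Matrix.zero_vecMul] at h3
    exact congrFun h3 j
  · exfalso
    refine caseT S κ' orth' ind' (τ' 0) (hx' 0) (fun A hA => ?_) (fun A hA => ?_)
      (A0 : Fin c → MvPolynomial (Fin 3) k) A0.2 ?_
    · have h := hT ⟨A, hA⟩
      rw [hval] at h
      exact h
    · have h := hK ⟨A, hA⟩
      rw [hval] at h
      exact h
    · rw [hval] at hne
      exact hne

end

end Pool.Agent.Edge.H53
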