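import Pool.Agent.Lib.MP_c7af3c_ag.EDGE.H53.CaseT

/-!
# EDGE for all c, part 3: case (M) (helper53)
-/

set_option autoImplicit false

namespace Pool.Agent.Edge.H53

open MvPolynomial LangT1

section

variable {k Ω : Type*} [Field k] [Field Ω] [Algebra k Ω] {n c : ℕ} {d : Fin c → ℕ}

/-- `y` is not of the form `s (z0 + t z1 + t^2 z2)` -/
def NoCon (k : Type*) {Ω : Type*} [Field k] [Field Ω] [Algebra k Ω] (y : Fin 3 → Ω) : Prop :=
  ∀ z : Fin 3 → Fin 3 → k, LinearIndependent k z → ∀ s t : Ω,
    y ≠ fun c => s * (algebraMap k Ω (z 0 c) + t * algebraMap k Ω (z 1 c) +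
      t ^ 2 * algebraMap k Ω (z 2 c))

/-- projection to the homogeneous components of degrees `d a - 1` -/
noncomputable def hcL (d : Fin c → ℕ) :
    (Fin c → MvPolynomial (Fin 3) k) →ₗ[k] (Fin c → MvPolynomial (Fin 3) k) where
  toFun A := fun a => homogeneousComponent (d a - 1) (A a)
  map_add' A B := by funext a; simp
  map_smul' r A := by funext a; simp

theorem hcL_isB (A : Fin c → MvPolynomial (Fin 3) k) : IsB d (hcL d A) := fun _ =>
  homogeneousComponent_isHomogeneous _ _

theorem hcL_self {A : Fin c → MvPolynomial (Fin 3) k} (hA : IsB d A) : hcL d A = A := by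
  funext a
  change homogeneousComponent (d a - 1) (A a) = A a
  rw [homogeneousComponent_of_mem (hA a), if_pos rfl]

variable {y : Fin 3 → Ω} {f : Fin (n + 1) → Fin c → MvPolynomial (Fin 3) k}
  {x : Fin (n + 1) → Ω} {W : (Fin c → MvPolynomial (Fin 3) Ω) →ₗ[Ω] (Fin (n + 1) → Ω)}

/-- the rational functional -/
theorem exists_theta (L : (Fin c → MvPolynomial (Fin 3) Ω) →ₗ[Ω] Ω)
    (hK : ∀ A : Fin c → MvPolynomial (Fin 3) k, IsB d A → L (mp Ω A) ∈ KK k Ω) :
    ∃ θ : (Fin c → MvPolynomial (Fin 3) k) →ₗ[k] k, ∀ A, IsB d A →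
      algebraMap k Ω (θ A) = L (mp Ω A) := by
  let Λ : (Fin c → MvPolynomial (Fin 3) k) →ₗ[k] Ω :=
    { toFun := fun A => L (mp Ω (hcL d A))
      map_add' := fun A B => by
        have : mp Ω (hcL d (A + B)) = mp Ω (hcL d A) + mp Ω (hcL d B) := by
          funext a; simp [mp, hcL]
        rw [this, map_add]
      map_smul' := fun r A => by
        have : mp Ω (hcL d (r • A)) = (algebraMap k Ω r) • mp Ω (hcL d A) := by
          funext a
          simp only [mp, hcL, LinearMap.coe_mk, AddHom.coe_mk, Pi.smul_apply, map_smul]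
          rw [smul_eq_C_mul, map_mul, map_C, ← smul_eq_C_mul]
        rw [this, map_smul, RingHom.id_apply, smul_eq_mul, Algebra.smul_def] }
  obtain ⟨θ, hθ⟩ := lift_k Λ (fun A => hK _ (hcL_isB A))
  refine ⟨θ, fun A hA => ?_⟩
  rw [hθ]
  change L (mp Ω (hcL d A)) = _
  rw [hcL_self hA]

/-- the space of rational relations -/
noncomputable def RelT (d : Fin c → ℕ)
    (θ : Fin 2 → Fin 2 → ((Fin c → MvPolynomial (Fin 3) k) →ₗ[k] k)) :
    Submodule k (Fin 2 × Fin 3 → k) where
  carrier := {m | ∀ j B, IsB' d B →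
    θ 0 j (fun a => lin (fun c => m (1, c)) * B a) = θ 1 j (fun a => lin (fun c => m (0, c)) * B a)}
  add_mem' := by
    intro m m' h h' j B hB
    have e := h j B hB
    have e' := h' j B hB
    have h1 : ∀ i : Fin 2, (fun a => lin (fun c => (m + m') (i, c)) * B a) =
        (fun a => lin (fun c => m (i, c)) * B a) + fun a => lin (fun c => m' (i, c)) * B a := by
      intro i
      funext a
      rw [Pi.add_apply, ← add_mul, ← lin_add]
      rfl
    rw [h1, h1, map_add, map_add, e, e']
  zero_mem' := by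
    intro j B _
    have h1 : ∀ i : Fin 2, (fun a => lin (fun c => (0 : Fin 2 × Fin 3 → k) (i, c)) * B a) = 0 := by
      intro i
      funext a
      have : (fun c => (0 : Fin 2 × Fin 3 → k) (i, c)) = 0 := rfl
      rw [this, lin_zero, zero_mul]
      rfl
    rw [h1, h1, map_zero, map_zero]
  smul_mem' := by
    intro r m h j B hB
    have e := h j B hB
    have h1 : ∀ i : Fin 2, (fun a => lin (fun c => (r • m) (i, c)) * B a) =
        r • (fun a => lin (fun c => m (i, c)) * B a) := by
      intro i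
      funext a
      have : (fun c => (r • m) (i, c)) = r • fun c => m (i, c) := rfl
      rw [this, lin_smul, Pi.smul_apply, smul_eq_C_mul, mul_assoc]
    rw [h1, h1, map_smul, map_smul, e]

theorem relT_mem {θ : Fin 2 → Fin 2 → ((Fin c → MvPolynomial (Fin 3) k) →ₗ[k] k)}
    {m : Fin 2 × Fin 3 → k} : m ∈ RelT d θ ↔ ∀ j B, IsB' d B →
    θ 0 j (fun a => lin (fun c => m (1, c)) * B a) =
      θ 1 j (fun a => lin (fun c => m (0, c)) * B a) := Iff.rfl

/-- `κ` in terms of rational relations -/
theorem relT_exp {κ : Fin 2 → Fin 3 → Ω} {τ : Fin 2 → (Fin (n + 1) → Ω) →ₗ[Ω] Ω}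
    {θ : Fin 2 → Fin 2 → ((Fin c → MvPolynomial (Fin 3) k) →ₗ[k] k)}
    (hθ : ∀ i j A, IsB d A → algebraMap k Ω (θ i j A) = τ j (W (mulL (κ i) (mp Ω A)))) :
    ∃ (r : ℕ) (e : Fin r → Ω) (w : Fin r → RelT d θ),
      ∀ i c, κ i c = ∑ a, algebraMap k Ω ((w a : Fin 2 × Fin 3 → k) (i, c)) * e a := by
  obtain ⟨r, e, w, he, hw⟩ := exp_lemma (k := k) (fun ic : Fin 2 × Fin 3 => κ ic.1 ic.2)
  have hw' : ∀ i, κ i = ∑ a, e a • (fun c => algebraMap k Ω (w a (i, c))) := by
    intro i
    funext c
    rw [Finset.sum_apply]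
    refine (hw (i, c)).trans ?_
    refine Finset.sum_congr rfl fun a _ => ?_
    rw [Pi.smul_apply, smul_eq_mul, mul_comm]
  have hmem : ∀ a, w a ∈ RelT d θ := by
    intro a
    rw [relT_mem]
    intro j B hB
    have key : ∀ i i', τ j (W (mulL (κ i') (mulL (κ i) (mp Ω B)))) =
        ∑ a, e a * algebraMap k Ω (θ i j (fun b => lin (fun c => w a (i', c)) * B b)) := by
      intro i i'
      rw [hw' i', mulL_sum, map_sum, map_sum]
      refine Finset.sum_congr rfl fun a _ => ?_
      rw [mulL_smul, map_smul, map_smul, smul_eq_mul, mulL_comm,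
        ← mp_lin (Ω := Ω) (fun c => w a (i', c)) B, ← hθ i j _ (hB.mul _)]
    have h1 := key 0 1
    have h2 := key 1 0
    rw [mulL_comm] at h2
    rw [h1] at h2
    rw [Fintype.linearIndependent_iff] at he
    have h3 := he (fun a => θ 0 j (fun b => lin (fun c => w a (1, c)) * B b) -
      θ 1 j (fun b => lin (fun c => w a (0, c)) * B b)) (by
        simp only [Algebra.smul_def, map_sub, sub_mul, Finset.sum_sub_distrib]
        rw [sub_eq_zero]
        simpa only [mul_comm] using h2) a
    exact sub_eq_zero.1 h3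
  exact ⟨r, e, fun a => ⟨w a, hmem a⟩, fun i c => hw (i, c)⟩

/-- the case `dim ≤ 2` (adapted from helper65's `small_case`) -/
theorem small_caseT (hx : LinearIndependent k y) (NC : NoCon k y)
    (κ : Fin 2 → Fin 3 → Ω) (orth : ∀ i, ∑ c, κ i c * y c = 0) (ind : LinearIndependent Ω κ)
    (R : Submodule k (Fin 2 × Fin 3 → k))
    (hexp : ∃ (r : ℕ) (e : Fin r → Ω) (w : Fin r → R),
      ∀ i c, κ i c = ∑ a, algebraMap k Ω ((w a : Fin 2 × Fin 3 → k) (i, c)) * e a)
    (hd : Module.finrank k R ≤ 2) : False := by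
  obtain ⟨r, e, w, hw⟩ := hexp
  obtain ⟨K, K', hK⟩ := two_span hd
  choose a b hab using fun i => hK (w i)
  set α : Ω := ∑ i, algebraMap k Ω (a i) * e i with hα
  set β : Ω := ∑ i, algebraMap k Ω (b i) * e i with hβ
  let N : Fin 2 → Fin 3 → k := fun i c => (K : Fin 2 × Fin 3 → k) (i, c)
  let N' : Fin 2 → Fin 3 → k := fun i c => (K' : Fin 2 × Fin 3 → k) (i, c)
  have hκ : ∀ i c, κ i c = α * algebraMap k Ω (N i c) + β * algebraMap k Ω (N' i c) := by
    intro i c
    rw [hw, hα, hβ, Finset.sum_mul, Finset.sum_mul, ← Finset.sum_add_distrib]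
    refine Finset.sum_congr rfl fun j _ => ?_
    have e2 : (w j : Fin 2 × Fin 3 → k) (i, c) = a j * N i c + b j * N' i c := by
      rw [hab j]; rfl
    rw [e2, map_add, map_mul, map_mul]
    ring
  obtain ⟨s, hs⟩ := cross_prop y κ orth ind
  have hsne : s ≠ 0 := by
    rintro rfl
    rw [zero_smul] at hs
    exact hx.ne_zero 0 (congrFun hs 0)
  obtain ⟨z, hz⟩ : ∃ z : Fin 3 → Fin 3 → k, (s⁻¹ • y) = fun c =>
      α ^ 2 * algebraMap k Ω (z 0 c) + α * β * algebraMap k Ω (z 1 c) +
        β ^ 2 * algebraMap k Ω (z 2 c) := by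
    refine ⟨![![N 0 1 * N 1 2 - N 0 2 * N 1 1, N 0 2 * N 1 0 - N 0 0 * N 1 2,
        N 0 0 * N 1 1 - N 0 1 * N 1 0],
      ![N 0 1 * N' 1 2 - N 0 2 * N' 1 1 + (N' 0 1 * N 1 2 - N' 0 2 * N 1 1),
        N 0 2 * N' 1 0 - N 0 0 * N' 1 2 + (N' 0 2 * N 1 0 - N' 0 0 * N 1 2),
        N 0 0 * N' 1 1 - N 0 1 * N' 1 0 + (N' 0 0 * N 1 1 - N' 0 1 * N 1 0)],
      ![N' 0 1 * N' 1 2 - N' 0 2 * N' 1 1, N' 0 2 * N' 1 0 - N' 0 0 * N' 1 2,
        N' 0 0 * N' 1 1 - N' 0 1 * N' 1 0]], ?_⟩
    conv_lhs => rw [hs]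
    rw [smul_smul, inv_mul_cancel₀ hsne, one_smul]
    funext c
    fin_cases c <;>
    simp [hκ, map_sub, map_add, map_mul] <;> ring
  have hx' : LinearIndependent k (s⁻¹ • y) := by
    have h0 : s⁻¹ ≠ 0 := inv_ne_zero hsne
    rw [Fintype.linearIndependent_iff] at hx ⊢
    intro g hg
    refine hx g ?_
    have : s⁻¹ * ∑ i, g i • y i = 0 := by
      rw [← hg, Finset.mul_sum]
      refine Finset.sum_congr rfl fun i _ => ?_
      rw [Pi.smul_apply, smul_eq_mul, mul_smul_comm]
    exact (mul_eq_zero.1 this).resolve_left h0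
  refine no_conic (s⁻¹ • y) hx' ?_ z α β hz
  intro z hz s' t heq
  apply NC z hz (s * s') t
  have h2 : y = s • (s⁻¹ • y) := by rw [smul_smul, mul_inv_cancel₀ hsne, one_smul]
  rw [h2, heq]
  funext c
  simp only [Pi.smul_apply, smul_eq_mul]
  ring

/-- an element `(a0 m, a1 m)` of a space of pairs of dimension at least 3 -/
theorem exists_prop [IsAlgClosed k] (R : Submodule k (Fin 2 × Fin 3 → k))
    (hd : 3 ≤ Module.finrank k R) : ∃ (m : Fin 3 → k) (a b : Fin 2 → k), m ≠ 0 ∧
      a 1 * b 1 + a 0 * b 0 = 1 ∧ (fun ic : Fin 2 × Fin 3 => a ic.1 * m ic.2) ∈ R := by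
  let P : Fin 2 → (R →ₗ[k] (Fin 3 → k)) := fun i =>
    { toFun := fun K c => (K : Fin 2 × Fin 3 → k) (i, c)
      map_add' := fun K K' => rfl
      map_smul' := fun r K => rfl }
  obtain ⟨K, hK, r, hr, hrel⟩ := eig (P 0) (P 1) (by rw [Module.finrank_fin_fun]; exact hd)
    (by omega)
  by_cases h0 : r 0 = 0
  · have h1 : r 1 ≠ 0 := by
      intro h1
      apply hr
      funext i
      fin_cases i
      · exact h0
      · exact h1
    have h2 : ∀ c, (K : Fin 2 × Fin 3 → k) (1, c) = 0 := by
      intro c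
      have h := congrFun hrel c
      rw [h0, zero_smul, zero_add, Pi.smul_apply, smul_eq_mul, Pi.zero_apply] at h
      exact (mul_eq_zero.1 h).resolve_left h1
    refine ⟨fun c => (K : Fin 2 × Fin 3 → k) (0, c), ![1, 0], ![1, 0], ?_, by simp, ?_⟩
    · intro h
      apply hK
      apply Subtype.ext
      funext ⟨i, c⟩
      fin_cases i
      · exact congrFun h c
      · exact h2 c
    · have e : (fun ic : Fin 2 × Fin 3 => (![1, 0] : Fin 2 → k) ic.1 *
          (K : Fin 2 × Fin 3 → k) (0, ic.2)) = K := by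
        funext ⟨i, c⟩
        fin_cases i
        · simp
        · simp [h2 c]
      rw [e]
      exact K.2
  · have h2 : ∀ c, (K : Fin 2 × Fin 3 → k) (0, c) =
        -(r 1 / r 0) * (K : Fin 2 × Fin 3 → k) (1, c) := by
      intro c
      have h := congrFun hrel c
      rw [Pi.add_apply, Pi.smul_apply, Pi.smul_apply, smul_eq_mul, smul_eq_mul,
        Pi.zero_apply] at h
      have h' : r 0 * (K : Fin 2 × Fin 3 → k) (0, c) + r 1 * (K : Fin 2 × Fin 3 → k) (1, c) = 0 := h
      field_simp
      linear_combination h'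
    refine ⟨fun c => (K : Fin 2 × Fin 3 → k) (1, c), ![-(r 1 / r 0), 1], ![0, 1], ?_, by simp, ?_⟩
    · intro h
      apply hK
      apply Subtype.ext
      funext ⟨i, c⟩
      fin_cases i
      · have := h2 c
        rw [show (K : Fin 2 × Fin 3 → k) (1, c) = 0 from congrFun h c, mul_zero] at this
        exact this
      · exact congrFun h c
    · have e : (fun ic : Fin 2 × Fin 3 => (![-(r 1 / r 0), 1] : Fin 2 → k) ic.1 *
          (K : Fin 2 × Fin 3 → k) (1, ic.2)) = K := by
        funext ⟨i, c⟩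
        fin_cases i
        · simp [h2 c]
        · simp
      rw [e]
      exact K.2

/-- the functional of one component -/
noncomputable def compL (L : (Fin c → MvPolynomial (Fin 3) k) →ₗ[k] k) (m : Fin 3 → k)
    (a : Fin c) : MvPolynomial (Fin 3) k →ₗ[k] k where
  toFun A := L (fun b => lin m * (Pi.single a A : Fin c → MvPolynomial (Fin 3) k) b)
  map_add' A B := by
    rw [← map_add]
    congr 1
    funext b
    rw [Pi.single_add, Pi.add_apply, Pi.add_apply, mul_add]
  map_smul' r A := by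
    rw [RingHom.id_apply, ← map_smul]
    congr 1
    funext b
    rw [Pi.single_smul, Pi.smul_apply, Pi.smul_apply, mul_smul_comm]

/-- two linear forms with the zero `y` have no other zero over `k` -/
theorem no_zero (hy : LinearIndependent k y) (κ : Fin 2 → Fin 3 → Ω)
    (orth : ∀ i, ∑ c, κ i c * y c = 0) (ind : LinearIndependent Ω κ) (v : Fin 3 → k) (hv : v ≠ 0)
    (h : ∀ i, ∑ c, κ i c * algebraMap k Ω (v c) = 0) : False := by
  obtain ⟨s, hs⟩ := cross_prop y κ orth ind
  obtain ⟨s', hs'⟩ := cross_prop (fun c => algebraMap k Ω (v c)) κ h ind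
  set q : Fin 3 → Ω := ![κ 0 1 * κ 1 2 - κ 0 2 * κ 1 1, κ 0 2 * κ 1 0 - κ 0 0 * κ 1 2,
    κ 0 0 * κ 1 1 - κ 0 1 * κ 1 0]
  have hrel : ∀ i l, y i * algebraMap k Ω (v l) = y l * algebraMap k Ω (v i) := by
    intro i l
    have e1 := congrFun hs i
    have e2 := congrFun hs l
    have e3 : algebraMap k Ω (v i) = s' * q i := congrFun hs' i
    have e4 : algebraMap k Ω (v l) = s' * q l := congrFun hs' l
    rw [e3, e4, e1, e2, Pi.smul_apply, Pi.smul_apply, smul_eq_mul, smul_eq_mul]
    ring
  apply hv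
  funext i
  obtain ⟨l, hl⟩ : ∃ l : Fin 3, l ≠ i := exists_ne i
  rw [Fintype.linearIndependent_iff] at hy
  have h1 := hy (Pi.single l (v i) - Pi.single i (v l)) (by
    simp only [Pi.sub_apply, sub_smul, Finset.sum_sub_distrib]
    rw [Finset.sum_eq_single l, Finset.sum_eq_single i, Pi.single_eq_same, Pi.single_eq_same,
      Algebra.smul_def, Algebra.smul_def, sub_eq_zero]
    · linear_combination hrel l i
    · intro b _ hb; rw [Pi.single_eq_of_ne hb, zero_smul]
    · intro h; exact absurd (Finset.mem_univ _) h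
    · intro b _ hb; rw [Pi.single_eq_of_ne hb, zero_smul]
    · intro h; exact absurd (Finset.mem_univ _) h) l
  rw [Pi.sub_apply, Pi.single_eq_same, Pi.single_eq_of_ne hl, sub_zero] at h1
  exact h1

/-- Case (M). -/
theorem caseM [CharZero k] [CharZero Ω] [IsAlgClosed k] (S : Sit d y f x W) (NC : NoCon k y)
    (κ : Fin 2 → Fin 3 → Ω) (orth : ∀ i, ∑ c, κ i c * y c = 0) (ind : LinearIndependent Ω κ)
    (τ : Fin 2 → (Fin (n + 1) → Ω) →ₗ[Ω] Ω) (hx : ∀ j, τ j x = 0)
    (hM : ∀ (A : Fin c → MvPolynomial (Fin 3) k), IsB d A → ∀ i j,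
      τ j (W (mulL (κ i) (mp Ω A))) ∈ KK k Ω)
    (P : Fin 3 → Fin (n + 1) → k) (hxP : ∀ p, x p = ∑ i, y i * algebraMap k Ω (P i p))
    (hP : ∀ i a, d a ≤ 2 → ∑ p, C (P i p) * f p a = 0)
    (z : Fin 3 → Ω)
    (hz : ∀ a, eval y (fu f (fun p => ∑ i, z i * algebraMap k Ω (P i p)) a) = 0) (j : Fin 2) :
    τ j (fun p => ∑ i, z i * algebraMap k Ω (P i p)) = 0 := by
  classical
  -- the functionals
  have hex : ∀ i j, ∃ θ : (Fin c → MvPolynomial (Fin 3) k) →ₗ[k] k, ∀ A, IsB d A →
      algebraMap k Ω (θ A) = τ j (W (mulL (κ i) (mp Ω A))) := fun i j =>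
    exists_theta (τ j ∘ₗ W ∘ₗ mulL (κ i)) (fun A hA => hM A hA i j)
  choose θ hθ using hex
  have h3 : 3 ≤ Module.finrank k (RelT d θ) := by
    by_contra hlt
    exact small_caseT S.hy NC κ orth ind (RelT d θ) (relT_exp hθ) (by omega)
  obtain ⟨m, a, b, hm, hab, hR⟩ := exists_prop (RelT d θ) h3
  rw [relT_mem] at hR
  set m' : Fin 3 → Ω := fun i => algebraMap k Ω (m i) with hm'
  set A0 := algebraMap k Ω (a 0)
  set A1 := algebraMap k Ω (a 1)
  set B0 := algebraMap k Ω (b 0)
  set B1 := algebraMap k Ω (b 1)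
  have hAB : A1 * B1 + A0 * B0 = 1 := by
    rw [← map_mul, ← map_mul, ← map_add, hab, map_one]
  have hmy := S.lin_ne m hm
  set w : Fin 3 → Ω := A1 • κ 0 - A0 • κ 1 with hw
  set w' : Fin 3 → Ω := B0 • κ 0 + B1 • κ 1 with hw'
  -- the relation over `k`
  have hrel : ∀ j B, IsB' d B → a 1 * θ 0 j (fun c => lin m * B c) =
      a 0 * θ 1 j (fun c => lin m * B c) := by
    intro j B hB
    have h := hR j B hB
    have h1 : ∀ i : Fin 2, (fun b => lin (fun c => a i * m c) * B b) =
        a i • (fun b => lin m * B b) := by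
      intro i
      funext b
      have : (fun c => a i * m c) = a i • m := rfl
      rw [this, lin_smul, Pi.smul_apply, smul_eq_C_mul, mul_assoc]
    rw [h1, h1, map_smul, map_smul] at h
    exact h
  have hwk : ∀ j, ∀ B : Fin c → MvPolynomial (Fin 3) Ω, IsB' d B →
      τ j (W (mulL m' (mulL w B))) = 0 := by
    intro j B hB
    refine ext_B' (k := k) (τ j ∘ₗ W ∘ₗ mulL m' ∘ₗ mulL w) (fun A hA => ?_) B hB
    change τ j (W (mulL m' (mulL w (mp Ω A)))) = 0
    rw [mulL_comm, ← mp_lin, hw, sub_eq_add_neg, mulL_add, map_add, map_add, mulL_smul,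
      map_smul, map_smul, ← hθ 0 j _ (hA.mul m)]
    have : -(A0 • κ 1) = (-A0) • κ 1 := by rw [neg_smul]
    rw [this, mulL_smul, map_smul, map_smul, ← hθ 1 j _ (hA.mul m), smul_eq_mul, smul_eq_mul,
      neg_mul, ← sub_eq_add_neg, ← map_mul, ← map_mul, hrel j A hA, sub_self]
  -- `w`, `w'` are a basis of the linear forms vanishing at `y`
  have worth : ∑ c, w c * y c = 0 := by
    have h0 := orth 0
    have h1 := orth 1
    rw [Fin.sum_univ_three] at h0 h1 ⊢
    simp only [hw, Pi.sub_apply, Pi.smul_apply, smul_eq_mul]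
    linear_combination A1 * h0 - A0 * h1
  have worth' : ∑ c, w' c * y c = 0 := by
    have h0 := orth 0
    have h1 := orth 1
    rw [Fin.sum_univ_three] at h0 h1 ⊢
    simp only [hw', Pi.add_apply, Pi.smul_apply, smul_eq_mul]
    linear_combination B0 * h0 + B1 * h1
  have hind : LinearIndependent Ω ![w, w'] := by
    rw [LinearIndependent.pair_iff]
    intro s t hst
    have h1 : (s * A1 + t * B0) • κ 0 + (t * B1 - s * A0) • κ 1 = 0 := by
      rw [← hst, hw, hw']
      module
    have h2 := Fintype.linearIndependent_iff.1 ind ![s * A1 + t * B0, t * B1 - s * A0] (by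
      rw [Fin.sum_univ_two]; simpa using h1)
    have e0 : s * A1 + t * B0 = 0 := by simpa using h2 0
    have e1 : t * B1 - s * A0 = 0 := by simpa using h2 1
    constructor
    · linear_combination B1 * e0 - B0 * e1 - s * hAB
    · linear_combination A0 * e0 + A1 * e1 - t * hAB
  have hw0 : w ≠ 0 := by
    have := hind.ne_zero 0
    simpa using this
  -- the functionals `Θ`
  obtain ⟨Θ, hΘ⟩ : ∃ Θ : Fin 2 → ((Fin c → MvPolynomial (Fin 3) k) →ₗ[k] k), ∀ j A, IsB' d A →
      algebraMap k Ω (Θ j (fun c => lin m * A c)) = τ j (W (mulL w' (mulL m' (mp Ω A)))) := by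
    refine ⟨fun j => b 0 • θ 0 j + b 1 • θ 1 j, fun j A hA => ?_⟩
    rw [← mp_lin, hw', mulL_add, map_add, map_add, mulL_smul, mulL_smul, map_smul, map_smul,
      map_smul, map_smul, ← hθ 0 j _ (hA.mul m), ← hθ 1 j _ (hA.mul m)]
    simp only [LinearMap.add_apply, LinearMap.smul_apply, smul_eq_mul, map_add, map_mul]
    rfl
  obtain ⟨v, hv, hNR⟩ := non_rational y S.hy w hw0 worth
  -- single components
  have hsing : ∀ (a : Fin c) (A : MvPolynomial (Fin 3) k), A.IsHomogeneous (d a - 2) → 3 ≤ d a →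
      IsB' d (Pi.single a A : Fin c → MvPolynomial (Fin 3) k) := by
    intro a A hA h3 b
    by_cases hb : b = a
    · subst hb
      rw [Pi.single_eq_same]
      exact ⟨hA, fun h => by omega⟩
    · rw [Pi.single_eq_of_ne hb]
      exact ⟨isHomogeneous_zero _ _ _, fun _ => rfl⟩
  have hkill : ∀ j a, 3 ≤ d a → Kills w (compL (Θ j) m a) (d a - 3) := by
    intro j a h3 B hB
    have hB2 : ∀ c', IsB' d (Pi.single a (X c' * B) : Fin c → MvPolynomial (Fin 3) k) := by
      intro c'
      refine hsing a _ ?_ h3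
      have h := (isHomogeneous_X k c').mul hB
      rwa [show 1 + (d a - 3) = d a - 2 by omega] at h
    have h1 : ∀ c', algebraMap k Ω (compL (Θ j) m a (X c' * B)) =
        τ j (W (mulL w' (mulL m' (mp Ω (Pi.single a (X c' * B)))))) := fun c' =>
      hΘ j _ (hB2 c')
    simp only [h1]
    have h2 : ∑ c', w c' * τ j (W (mulL w' (mulL m' (mp Ω (Pi.single a (X c' * B)))))) =
        τ j (W (mulL m' (mulL w (fun b => lin w' *
          (Pi.single a (MvPolynomial.map (algebraMap k Ω) B) :
            Fin c → MvPolynomial (Fin 3) Ω) b)))) := by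
      have h2' : ∑ c', w c' • mulL w' (mulL m' (mp Ω
          (Pi.single a (X c' * B) : Fin c → MvPolynomial (Fin 3) k))) =
          mulL m' (mulL w (fun b => lin w' *
          (Pi.single a (MvPolynomial.map (algebraMap k Ω) B) :
            Fin c → MvPolynomial (Fin 3) Ω) b)) := by
        funext b
        rw [Finset.sum_apply]
        simp only [Pi.smul_apply, mulL_apply, mp]
        by_cases hb : b = a
        · subst hb
          simp only [Pi.single_eq_same, map_mul, map_X]
          have hl : lin w = ∑ i, C (w i) * X i := rfl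
          rw [hl, Finset.sum_mul, Finset.mul_sum]
          refine Finset.sum_congr rfl fun i _ => ?_
          rw [smul_eq_C_mul]
          ring
        · simp only [Pi.single_eq_of_ne hb, map_zero, mul_zero, smul_zero,
            Finset.sum_const_zero]
      rw [← h2', map_sum, map_sum]
      refine Finset.sum_congr rfl fun c' _ => ?_
      rw [map_smul, map_smul, smul_eq_mul]
    rw [h2]
    refine hwk j _ ?_
    intro b
    change (lin w' * (Pi.single a (MvPolynomial.map (algebraMap k Ω) B) :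
      Fin c → MvPolynomial (Fin 3) Ω) b).IsHomogeneous (d b - 2) ∧ (d b < 2 → lin w' *
      (Pi.single a (MvPolynomial.map (algebraMap k Ω) B) :
      Fin c → MvPolynomial (Fin 3) Ω) b = 0)
    by_cases hb : b = a
    · subst hb
      rw [Pi.single_eq_same]
      refine ⟨?_, fun h => by omega⟩
      have h := (lin_homogeneous w').mul (hB.map (algebraMap k Ω))
      rwa [show 1 + (d b - 3) = d b - 2 by omega] at h
    · rw [Pi.single_eq_of_ne hb, mul_zero]
      exact ⟨isHomogeneous_zero _ _ _, fun _ => rfl⟩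
  -- the constants
  have hconst : ∀ j a, ∃ s : k, 3 ≤ d a → (∀ A : MvPolynomial (Fin 3) k,
      A.IsHomogeneous (d a - 2) → compL (Θ j) m a A = s * eval v A) := by
    intro j a
    by_cases h3 : 3 ≤ d a
    · obtain ⟨s, hs⟩ := hNR _ _ (hkill j a h3)
      refine ⟨s, fun _ A hA => hs A ?_⟩
      rwa [show d a - 3 + 1 = d a - 2 by omega]
    · exact ⟨0, fun h => absurd h h3⟩
  choose s hs using hconst
  set v' : Fin 3 → Ω := fun i => algebraMap k Ω (v i) with hv'
  have hevmap : ∀ A : MvPolynomial (Fin 3) k, eval v' (MvPolynomial.map (algebraMap k Ω) A) =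
      algebraMap k Ω (eval v A) := by
    intro A
    rw [eval_map, hv']
    exact (eval₂_comp (algebraMap k Ω) v A).symm
  have hkey : ∀ j, ∀ B : Fin c → MvPolynomial (Fin 3) Ω, IsB' d B → (∀ a, d a ≤ 2 → B a = 0) →
      τ j (W (mulL w' (mulL m' B))) = ∑ a, algebraMap k Ω (s j a) * eval v' (B a) := by
    intro j B hB hB0
    conv_lhs => rw [tup_expand B]
    rw [map_sum, map_sum, map_sum, map_sum]
    refine Finset.sum_congr rfl fun a _ => ?_
    rw [map_sum, map_sum, map_sum, map_sum]
    by_cases h3 : 3 ≤ d a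
    · conv_rhs => rw [(B a).as_sum, map_sum, Finset.mul_sum]
      refine Finset.sum_congr rfl fun I hI => ?_
      have hdeg : I.degree = d a - 2 := by
        rw [Finsupp.degree_eq_weight_one]; exact (hB a).1 (mem_support_iff.1 hI)
      have h1 := hΘ j _ (single_isB' (R := k) a I hdeg (by omega))
      have h2 := hs j a h3 (monomial I 1) (isHomogeneous_monomial _ hdeg)
      rw [map_smul, map_smul, map_smul, map_smul, ← map_single (k := k)]
      change coeff I (B a) • τ j (W (mulL w' (mulL m' (mp Ω (Pi.single a (monomial I (1 : k)) :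
        Fin c → MvPolynomial (Fin 3) k))))) = _
      rw [← h1]
      change coeff I (B a) • algebraMap k Ω (compL (Θ j) m a (monomial I 1)) = _
      rw [h2, map_mul, smul_eq_mul, ← hevmap, map_monomial, map_one]
      have : (monomial I (coeff I (B a)) : MvPolynomial (Fin 3) Ω) =
          C (coeff I (B a)) * monomial I 1 := by rw [C_mul_monomial, mul_one]
      rw [this, map_mul, eval_C]
      ring
    · rw [hB0 a (by omega)]
      simp
  -- the restriction of the derivative
  set g : Fin 3 → Fin c → MvPolynomial (Fin 3) k := fun i a => ∑ p, C (P i p) * f p a with hg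
  have hfu : ∀ z : Fin 3 → Ω, ∀ a, fu f (fun p => ∑ i, z i * algebraMap k Ω (P i p)) a =
      ∑ i, C (z i) * MvPolynomial.map (algebraMap k Ω) (g i a) := by
    intro z a
    simp only [fu, hg, map_sum, map_mul, map_C, Finset.mul_sum, Finset.sum_mul]
    rw [Finset.sum_comm]
    refine Finset.sum_congr rfl fun i _ => Finset.sum_congr rfl fun p _ => by ring
  have hfu0 : ∀ z : Fin 3 → Ω, ∀ a, d a ≤ 2 →
      fu f (fun p => ∑ i, z i * algebraMap k Ω (P i p)) a = 0 := by
    intro z a ha
    rw [hfu]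
    refine Finset.sum_eq_zero fun i _ => ?_
    rw [hg]
    change C (z i) * MvPolynomial.map (algebraMap k Ω) (∑ p, C (P i p) * f p a) = 0
    rw [hP i a ha, map_zero, mul_zero]
  have horth2 : ∀ i, ∑ c, (![w, w'] : Fin 2 → Fin 3 → Ω) i c * y c = 0 := by
    intro i
    fin_cases i
    · exact worth
    · exact worth'
  -- the main computation
  have hmain : ∀ z : Fin 3 → Ω,
      (∀ a, eval y (fu f (fun p => ∑ i, z i * algebraMap k Ω (P i p)) a) = 0) → ∀ j,
      ∃ B0 B1 : Fin c → MvPolynomial (Fin 3) Ω, (∀ a, d a ≤ 2 → B0 a = 0 ∧ B1 a = 0) ∧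
        (∀ a, fu f (fun p => ∑ i, z i * algebraMap k Ω (P i p)) a =
          lin w * B0 a + lin w' * B1 a) ∧
        τ j (W (mulL m' (fu f (fun p => ∑ i, z i * algebraMap k Ω (P i p))))) =
          ∑ a, algebraMap k Ω (s j a) * eval v' (B1 a) := by
    intro z hz j
    obtain ⟨B0, B1, hB0, hB1, hE, hzz⟩ := decompT y S.y_ne ![w, w'] horth2 hind _
      (S.fu_isB (fun p => ∑ i, z i * algebraMap k Ω (P i p))) hz
    refine ⟨B0, B1, fun a ha => hzz a (hfu0 z a ha), hE, ?_⟩
    have hsum : fu f (fun p => ∑ i, z i * algebraMap k Ω (P i p)) = mulL w B0 + mulL w' B1 := by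
      funext a; exact hE a
    rw [hsum, map_add, map_add, map_add, hwk j B0 hB0, zero_add, mulL_comm]
    exact hkey j B1 hB1 fun a ha => (hzz a (hfu0 z a ha)).2
  have hconc : ∀ z : Fin 3 → Ω,
      (∀ a, eval y (fu f (fun p => ∑ i, z i * algebraMap k Ω (P i p)) a) = 0) → ∀ j,
      τ j (W (mulL m' (fu f (fun p => ∑ i, z i * algebraMap k Ω (P i p))))) = 0 := by
    intro z hz j
    by_cases hall : ∀ a, 3 ≤ d a → s j a = 0
    · obtain ⟨B0, B1, h1, h2, h3⟩ := hmain z hz j
      rw [h3]
      refine Finset.sum_eq_zero fun a _ => ?_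
      by_cases ha : 3 ≤ d a
      · rw [hall a ha, map_zero, zero_mul]
      · rw [(h1 a (by omega)).2, map_zero, mul_zero]
    · push Not at hall
      obtain ⟨a0, ha3, ha0⟩ := hall
      -- `w` vanishes at `v`
      have hwv : ∑ c, w c * v' c = 0 := by
        obtain ⟨i, hi⟩ := Function.ne_iff.1 hv
        have hi' : v i ≠ 0 := hi
        have h := hkill j a0 ha3 (X i ^ (d a0 - 3)) (by
          have := (isHomogeneous_X k i).pow (d a0 - 3)
          simpa using this)
        have h2 : ∀ c', compL (Θ j) m a0 (X c' * X i ^ (d a0 - 3)) =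
            s j a0 * (v c' * v i ^ (d a0 - 3)) := by
          intro c'
          rw [hs j a0 ha3]
          · rw [map_mul, map_pow, eval_X, eval_X]
          · have h3 := (isHomogeneous_X k c').mul ((isHomogeneous_X k i).pow (d a0 - 3))
            rwa [show 1 + 1 * (d a0 - 3) = d a0 - 2 by omega] at h3
        simp only [h2, map_mul, map_pow] at h
        have h4 : algebraMap k Ω (s j a0) * algebraMap k Ω (v i) ^ (d a0 - 3) *
            ∑ c, w c * v' c = 0 := by
          rw [← h, Finset.mul_sum]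
          refine Finset.sum_congr rfl fun c _ => ?_
          rw [hv']
          ring
        refine (mul_eq_zero.1 h4).resolve_left (mul_ne_zero ?_ (pow_ne_zero _ ?_))
        · rwa [Ne, map_eq_zero]
        · rwa [Ne, map_eq_zero]
      have hwv' : ∑ c, w' c * v' c ≠ 0 := by
        intro h0
        refine no_zero S.hy ![w, w'] horth2 hind v hv ?_
        intro i
        fin_cases i
        · exact hwv
        · exact h0
      -- the linear form `R`
      have hR1 : ∀ z : Fin 3 → Ω,
          (∀ a, eval y (fu f (fun p => ∑ i, z i * algebraMap k Ω (P i p)) a) = 0) →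
          (∑ c, w' c * v' c) *
            τ j (W (mulL m' (fu f (fun p => ∑ i, z i * algebraMap k Ω (P i p))))) =
          ∑ i, algebraMap k Ω (∑ a, s j a * eval v (g i a)) * z i := by
        intro z hz
        obtain ⟨B0, B1, h1, h2, h3⟩ := hmain z hz j
        rw [h3, Finset.mul_sum]
        have h4 : ∀ a, (∑ c, w' c * v' c) * (algebraMap k Ω (s j a) * eval v' (B1 a)) =
            ∑ i, algebraMap k Ω (s j a * eval v (g i a)) * z i := by
          intro a
          have h5 := congrArg (eval v') (h2 a)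
          rw [hfu, map_add, map_mul, map_mul, eval_lin, eval_lin, hwv, zero_mul, zero_add,
            map_sum] at h5
          simp only [map_mul, eval_C, hevmap] at h5 ⊢
          calc (∑ c, w' c * v' c) * (algebraMap k Ω (s j a) * eval v' (B1 a)) =
              algebraMap k Ω (s j a) * ((∑ c, w' c * v' c) * eval v' (B1 a)) := by ring
            _ = _ := by
              rw [← h5, Finset.mul_sum]
              refine Finset.sum_congr rfl fun i _ => ?_
              ring
        simp only [h4]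
        rw [Finset.sum_comm]
        refine Finset.sum_congr rfl fun i _ => ?_
        rw [map_sum, Finset.sum_mul]
      have hxx : (fun p => ∑ i, y i * algebraMap k Ω (P i p)) = x := by
        funext p; exact (hxP p).symm
      have hR2 := hR1 y (by rw [hxx]; exact S.hX)
      have hR3 : τ j (W (mulL m' (fu f x))) = 0 := by
        have h := tau_zero (τ j) (hx j) (S.hE m' x)
        rw [map_add, map_smul, hx j, smul_zero, add_zero] at h
        exact h
      rw [hxx, hR3, mul_zero] at hR2
      have hR4 := rational_zero y S.hy (fun i => ∑ a, s j a * eval v (g i a)) hR2.symm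
      have hR5 := hR1 z hz
      have hR6 : ∀ i, (∑ a, s j a * eval v (g i a)) = 0 := fun i => congrFun hR4 i
      simp only [hR6, map_zero, zero_mul, Finset.sum_const_zero] at hR5
      exact (mul_eq_zero.1 hR5).resolve_left hwv'
  have h1 := tau_zero (τ j) (hx j) (S.hE m' (fun p => ∑ i, z i * algebraMap k Ω (P i p)))
  rw [map_add, hconc z hz j, zero_add, map_smul, smul_eq_mul] at h1
  exact (mul_eq_zero.1 h1).resolve_left hmy

end

end Pool.Agent.Edge.H53
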