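import Pool.Agent.Lib.MP_c7af3c_ag.EDGE.H53.Tup

/-!
# EDGE for all c, part 2: the situation on the plane, case (T) (helper53)
-/

set_option autoImplicit false

namespace Pool.Agent.Edge.H53

open MvPolynomial LangT1

section

variable {k Ω : Type*} [Field k] [Field Ω] [Algebra k Ω] {n c : ℕ} {d : Fin c → ℕ}

/-- multiplication of a tuple by a linear form -/
noncomputable def mulL (m : Fin 3 → Ω) :
    (Fin c → MvPolynomial (Fin 3) Ω) →ₗ[Ω] (Fin c → MvPolynomial (Fin 3) Ω) where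
  toFun G := fun a => lin m * G a
  map_add' G H := by funext a; simp [mul_add]
  map_smul' r G := by funext a; simp

theorem mulL_apply (m : Fin 3 → Ω) (G : Fin c → MvPolynomial (Fin 3) Ω) (a : Fin c) :
    mulL m G a = lin m * G a := rfl

theorem mulL_comm (m m' : Fin 3 → Ω) (G : Fin c → MvPolynomial (Fin 3) Ω) :
    mulL m (mulL m' G) = mulL m' (mulL m G) := by
  funext a
  simp only [mulL_apply]
  ring

theorem mulL_add (m m' : Fin 3 → Ω) (G : Fin c → MvPolynomial (Fin 3) Ω) :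
    mulL (m + m') G = mulL m G + mulL m' G := by
  funext a
  simp only [mulL_apply, Pi.add_apply, lin_add]
  ring

theorem mulL_smul (r : Ω) (m : Fin 3 → Ω) (G : Fin c → MvPolynomial (Fin 3) Ω) :
    mulL (r • m) G = r • mulL m G := by
  funext a
  simp only [mulL_apply, Pi.smul_apply, lin_smul, smul_eq_C_mul]
  ring

theorem mulL_sum {ι : Type*} (s : Finset ι) (m : ι → Fin 3 → Ω)
    (G : Fin c → MvPolynomial (Fin 3) Ω) : mulL (∑ i ∈ s, m i) G = ∑ i ∈ s, mulL (m i) G := by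
  classical
  induction s using Finset.induction_on with
  | empty => simp only [Finset.sum_empty]; funext a; simp [mulL_apply, lin_zero]
  | insert i s hi ih => rw [Finset.sum_insert hi, Finset.sum_insert hi, mulL_add, ih]

/-- a tuple over `k` as a tuple over `Ω` -/
noncomputable def mp (Ω : Type*) [Field Ω] [Algebra k Ω] (A : Fin c → MvPolynomial (Fin 3) k) :
    Fin c → MvPolynomial (Fin 3) Ω := fun a => MvPolynomial.map (algebraMap k Ω) (A a)

theorem mp_lin (m : Fin 3 → k) (A : Fin c → MvPolynomial (Fin 3) k) :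
    mp Ω (fun a => lin m * A a) = mulL (fun i => algebraMap k Ω (m i)) (mp Ω A) := by
  funext a
  simp only [mp, mulL_apply, map_mul, map_lin]

theorem mulL_isB {A : Fin c → MvPolynomial (Fin 3) Ω} (hA : IsB' d A) (m : Fin 3 → Ω) :
    IsB d (mulL m A) := hA.mul m

theorem mp_isB {A : Fin c → MvPolynomial (Fin 3) k} (hA : IsB d A) : IsB d (mp Ω A) := hA.map

theorem mp_isB' {A : Fin c → MvPolynomial (Fin 3) k} (hA : IsB' d A) : IsB' d (mp Ω A) := hA.map

/-- the derivative of `F` in the direction `u`, restricted to the plane -/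
noncomputable def fu (f : Fin (n + 1) → Fin c → MvPolynomial (Fin 3) k) (u : Fin (n + 1) → Ω) :
    Fin c → MvPolynomial (Fin 3) Ω :=
  fun a => ∑ p, C (u p) * MvPolynomial.map (algebraMap k Ω) (f p a)

/-- the situation on the plane -/
structure Sit (d : Fin c → ℕ) (y : Fin 3 → Ω) (f : Fin (n + 1) → Fin c → MvPolynomial (Fin 3) k)
    (x : Fin (n + 1) → Ω)
    (W : (Fin c → MvPolynomial (Fin 3) Ω) →ₗ[Ω] (Fin (n + 1) → Ω)) : Prop where
  hy : LinearIndependent k y
  hf : ∀ p, IsB d (f p)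
  hE : ∀ (m : Fin 3 → Ω) (u : Fin (n + 1) → Ω),
    W (mulL m (fu f u)) + (∑ i, m i * y i) • u ∈ Submodule.span Ω {x}
  hR : ∀ (A : Fin c → MvPolynomial (Fin 3) Ω) (m : Fin 3 → Ω), IsB d A → ∑ i, m i * y i = 0 →
    ∀ a, eval y (fu f (W (mulL m A)) a) = 0
  hX : ∀ a, eval y (fu f x a) = 0

variable {y : Fin 3 → Ω} {f : Fin (n + 1) → Fin c → MvPolynomial (Fin 3) k}
  {x : Fin (n + 1) → Ω} {W : (Fin c → MvPolynomial (Fin 3) Ω) →ₗ[Ω] (Fin (n + 1) → Ω)}

theorem Sit.fu_isB (S : Sit d y f x W) (u : Fin (n + 1) → Ω) : IsB d (fu f u) := by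
  intro a
  refine IsHomogeneous.sum _ _ _ fun p _ => ?_
  simpa using (isHomogeneous_C (Fin 3) (u p)).mul ((S.hf p a).map (algebraMap k Ω))

theorem Sit.y_ne (S : Sit d y f x W) : y ≠ 0 := by
  intro h
  exact S.hy.ne_zero 0 (congrFun h 0)

/-- a nonzero form over `k` does not vanish at `y` -/
theorem Sit.lin_ne (S : Sit d y f x W) (m : Fin 3 → k) (hm : m ≠ 0) :
    ∑ i, algebraMap k Ω (m i) * y i ≠ 0 := by
  intro h
  exact hm (rational_zero y S.hy m h)

theorem tau_zero (τ : (Fin (n + 1) → Ω) →ₗ[Ω] Ω) (hx : τ x = 0) {u : Fin (n + 1) → Ω}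
    (hu : u ∈ Submodule.span Ω {x}) : τ u = 0 := by
  obtain ⟨r, rfl⟩ := Submodule.mem_span_singleton.1 hu
  rw [map_smul, hx, smul_zero]

/-- Case (T). -/
theorem caseT [CharZero Ω] (S : Sit d y f x W) (κ : Fin 2 → Fin 3 → Ω)
    (orth : ∀ i, ∑ c, κ i c * y c = 0) (ind : LinearIndependent Ω κ)
    (τ : (Fin (n + 1) → Ω) →ₗ[Ω] Ω) (hx : τ x = 0)
    (hT : ∀ A : Fin c → MvPolynomial (Fin 3) k, IsB d A → τ (W (mulL (κ 1) (mp Ω A))) = 0)
    (hK : ∀ A : Fin c → MvPolynomial (Fin 3) k, IsB d A →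
      τ (W (mulL (κ 0) (mp Ω A))) ∈ KK k Ω)
    (A0 : Fin c → MvPolynomial (Fin 3) k) (hA0 : IsB d A0)
    (hne : τ (W (mulL (κ 0) (mp Ω A0))) ≠ 0) : False := by
  classical
  -- (T) over Ω
  have hT' : ∀ A : Fin c → MvPolynomial (Fin 3) Ω, IsB d A → τ (W (mulL (κ 1) A)) = 0 := by
    intro A hA
    exact ext_B (k := k) (τ ∘ₗ W ∘ₗ mulL (κ 1)) (fun A hA => hT A hA) A hA
  obtain ⟨r, e, w, he, hw⟩ := exp_lemma (k := k) (κ 1)
  have hw' : κ 1 = ∑ a, e a • (fun i => algebraMap k Ω (w a i)) := by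
    funext i
    rw [hw i, Finset.sum_apply]
    refine Finset.sum_congr rfl fun a _ => ?_
    rw [Pi.smul_apply, smul_eq_mul, mul_comm]
  have hwk : ∀ a, ∀ B : Fin c → MvPolynomial (Fin 3) k, IsB' d B →
      τ (W (mulL (fun i => algebraMap k Ω (w a i)) (mulL (κ 0) (mp Ω B)))) = 0 := by
    intro a B hB
    have hB2 : ∀ a, ∃ s : k, algebraMap k Ω s =
        τ (W (mulL (fun i => algebraMap k Ω (w a i)) (mulL (κ 0) (mp Ω B)))) := by
      intro a
      rw [mulL_comm, ← mp_lin]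
      exact hK _ (hB.mul (w a))
    choose s hs using hB2
    have h1 := hT' (mulL (κ 0) (mp Ω B)) (mulL_isB (mp_isB' hB) _)
    rw [hw', mulL_sum, map_sum, map_sum] at h1
    simp only [mulL_smul, map_smul, smul_eq_mul] at h1
    rw [Fintype.linearIndependent_iff] at he
    have h2 := he s (by
      rw [← h1]
      refine Finset.sum_congr rfl fun a _ => ?_
      rw [Algebra.smul_def, hs, mul_comm]) a
    rw [← hs a, h2, map_zero]
  obtain ⟨a, ha⟩ : ∃ a, w a ≠ 0 := by
    by_contra h0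
    push Not at h0
    apply ind.ne_zero 1
    rw [hw']
    refine Finset.sum_eq_zero fun a _ => ?_
    rw [h0 a]
    funext i
    simp
  set m : Fin 3 → Ω := fun i => algebraMap k Ω (w a i) with hm
  have hL : ∀ B : Fin c → MvPolynomial (Fin 3) Ω, IsB' d B →
      τ (W (mulL m (mulL (κ 0) B))) = 0 := by
    intro B hB
    exact ext_B' (k := k) (τ ∘ₗ W ∘ₗ mulL m ∘ₗ mulL (κ 0)) (fun A hA => hwk a A hA) B hB
  have hmy := S.lin_ne (w a) ha
  -- tangent vectors
  have htan : ∀ u : Fin (n + 1) → Ω, (∀ a, eval y (fu f u a) = 0) → τ u = 0 := by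
    intro u hu
    obtain ⟨B0, B1, hB0, hB1, hE, -⟩ := decompT y S.y_ne κ orth ind (fu f u) (S.fu_isB u) hu
    have hsum : fu f u = mulL (κ 0) B0 + mulL (κ 1) B1 := by
      funext a; exact hE a
    have h1 : τ (W (mulL m (fu f u))) = 0 := by
      rw [hsum, map_add, map_add, map_add, hL B0 hB0, zero_add, mulL_comm]
      exact hT' _ (mulL_isB hB1 m)
    have h2 := tau_zero τ hx (S.hE m u)
    rw [map_add, h1, zero_add, map_smul, smul_eq_mul] at h2
    exact (mul_eq_zero.1 h2).resolve_left hmy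
  exact hne (htan _ (S.hR _ _ (mp_isB hA0) (orth 0)))

end

end Pool.Agent.Edge.H53
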