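import Pool.Agent.Lib.MP_c7af3c_ag.T1.H65.Small

/-!
# EDGE for all c, part 1: tuples of forms in three variables (helper53)
-/

set_option autoImplicit false

namespace Pool.Agent.Edge.H53

open MvPolynomial LangT1

section tup

variable {c : ℕ} (d : Fin c → ℕ)

/-- tuples of forms of degrees `d a - 1` -/
def IsB {R : Type*} [CommSemiring R] (A : Fin c → MvPolynomial (Fin 3) R) : Prop :=
  ∀ a, (A a).IsHomogeneous (d a - 1)

/-- tuples of forms of degrees `d a - 2` -/
def IsB' {R : Type*} [CommSemiring R] (A : Fin c → MvPolynomial (Fin 3) R) : Prop :=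
  ∀ a, (A a).IsHomogeneous (d a - 2) ∧ (d a < 2 → A a = 0)

variable {d}

theorem IsB'.mul {R : Type*} [Field R] {A : Fin c → MvPolynomial (Fin 3) R} (hA : IsB' d A)
    (m : Fin 3 → R) : IsB d (fun a => lin m * A a) := by
  intro a
  change (lin m * A a).IsHomogeneous (d a - 1)
  by_cases h : d a < 2
  · rw [(hA a).2 h, mul_zero]
    exact isHomogeneous_zero _ _ _
  · have h2 := (lin_homogeneous m).mul (hA a).1
    rwa [show 1 + (d a - 2) = d a - 1 by omega] at h2

theorem IsB'.smul {R : Type*} [Field R] {A : Fin c → MvPolynomial (Fin 3) R} (hA : IsB' d A)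
    (r : R) : IsB' d (fun a => C r * A a) := by
  intro a
  refine ⟨?_, fun h => by change C r * A a = 0; rw [(hA a).2 h, mul_zero]⟩
  simpa using (isHomogeneous_C (Fin 3) r).mul (hA a).1

theorem IsB.map {k Ω : Type*} [Field k] [Field Ω] [Algebra k Ω]
    {A : Fin c → MvPolynomial (Fin 3) k} (hA : IsB d A) :
    IsB d (fun a => map (algebraMap k Ω) (A a)) := fun a => (hA a).map _

theorem IsB'.map {k Ω : Type*} [Field k] [Field Ω] [Algebra k Ω]
    {A : Fin c → MvPolynomial (Fin 3) k} (hA : IsB' d A) :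
    IsB' d (fun a => map (algebraMap k Ω) (A a)) :=
  fun a => ⟨(hA a).1.map _, fun h => by
    change MvPolynomial.map (algebraMap k Ω) (A a) = 0
    rw [(hA a).2 h, map_zero]⟩

theorem map_lin {k Ω : Type*} [Field k] [Field Ω] [Algebra k Ω] (m : Fin 3 → k) :
    MvPolynomial.map (algebraMap k Ω) (lin m) = lin (fun i => algebraMap k Ω (m i)) := by
  simp [lin]

/-- expansion of a tuple in monomials -/
theorem tup_expand {R : Type*} [Field R] (A : Fin c → MvPolynomial (Fin 3) R) :
    A = ∑ a, ∑ I ∈ (A a).support, coeff I (A a) • (Pi.single a (monomial I 1) :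
      Fin c → MvPolynomial (Fin 3) R) := by
  classical
  funext b
  rw [Finset.sum_apply, Finset.sum_eq_single b]
  · rw [Finset.sum_apply]
    conv_lhs => rw [(A b).as_sum]
    refine Finset.sum_congr rfl fun I _ => ?_
    rw [Pi.smul_apply, Pi.single_eq_same, smul_monomial, smul_eq_mul, mul_one]
  · intro a _ ha
    rw [Finset.sum_apply]
    refine Finset.sum_eq_zero fun I _ => ?_
    rw [Pi.smul_apply, Pi.single_eq_of_ne (Ne.symm ha), smul_zero]
  · intro h; exact absurd (Finset.mem_univ _) h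

theorem single_isB {R : Type*} [Field R] (a : Fin c) (I : Fin 3 →₀ ℕ) (h : I.degree = d a - 1) :
    IsB d (Pi.single a (monomial I (1 : R)) : Fin c → MvPolynomial (Fin 3) R) := by
  intro b
  by_cases hb : b = a
  · subst hb
    rw [Pi.single_eq_same]
    exact isHomogeneous_monomial _ h
  · rw [Pi.single_eq_of_ne hb]
    exact isHomogeneous_zero _ _ _

theorem single_isB' {R : Type*} [Field R] (a : Fin c) (I : Fin 3 →₀ ℕ) (h : I.degree = d a - 2)
    (h2 : 2 ≤ d a) :
    IsB' d (Pi.single a (monomial I (1 : R)) : Fin c → MvPolynomial (Fin 3) R) := by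
  intro b
  by_cases hb : b = a
  · subst hb
    rw [Pi.single_eq_same]
    exact ⟨isHomogeneous_monomial _ h, fun h => by omega⟩
  · rw [Pi.single_eq_of_ne hb]
    exact ⟨isHomogeneous_zero _ _ _, fun _ => rfl⟩

variable {k Ω : Type*} [Field k] [Field Ω] [Algebra k Ω]

theorem map_single (a : Fin c) (I : Fin 3 →₀ ℕ) :
    (fun b => MvPolynomial.map (algebraMap k Ω)
      ((Pi.single a (monomial I (1 : k)) : Fin c → MvPolynomial (Fin 3) k) b)) =
    (Pi.single a (monomial I (1 : Ω)) : Fin c → MvPolynomial (Fin 3) Ω) := by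
  funext b
  by_cases hb : b = a
  · subst hb
    rw [Pi.single_eq_same, Pi.single_eq_same, map_monomial, map_one]
  · rw [Pi.single_eq_of_ne hb, Pi.single_eq_of_ne hb, map_zero]

/-- a linear map which vanishes on the tuples over `k` vanishes on all tuples -/
theorem ext_B {M : Type*} [AddCommGroup M] [Module Ω M]
    (L : (Fin c → MvPolynomial (Fin 3) Ω) →ₗ[Ω] M)
    (h : ∀ A : Fin c → MvPolynomial (Fin 3) k, IsB d A →
      L (fun a => MvPolynomial.map (algebraMap k Ω) (A a)) = 0)
    (A : Fin c → MvPolynomial (Fin 3) Ω) (hA : IsB d A) : L A = 0 := by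
  rw [tup_expand A, map_sum]
  refine Finset.sum_eq_zero fun a _ => ?_
  rw [map_sum]
  refine Finset.sum_eq_zero fun I hI => ?_
  have hdeg : I.degree = d a - 1 := by
    rw [Finsupp.degree_eq_weight_one]; exact hA a (mem_support_iff.1 hI)
  rw [map_smul, ← map_single (k := k), h _ (single_isB a I hdeg), smul_zero]

theorem ext_B' {M : Type*} [AddCommGroup M] [Module Ω M]
    (L : (Fin c → MvPolynomial (Fin 3) Ω) →ₗ[Ω] M)
    (h : ∀ A : Fin c → MvPolynomial (Fin 3) k, IsB' d A →
      L (fun a => MvPolynomial.map (algebraMap k Ω) (A a)) = 0)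
    (A : Fin c → MvPolynomial (Fin 3) Ω) (hA : IsB' d A) : L A = 0 := by
  rw [tup_expand A, map_sum]
  refine Finset.sum_eq_zero fun a _ => ?_
  rw [map_sum]
  refine Finset.sum_eq_zero fun I hI => ?_
  have h2 : 2 ≤ d a := by
    by_contra hlt
    rw [(hA a).2 (by omega)] at hI
    simp at hI
  have hdeg : I.degree = d a - 2 := by
    rw [Finsupp.degree_eq_weight_one]; exact (hA a).1 (mem_support_iff.1 hI)
  rw [map_smul, ← map_single (k := k), h _ (single_isB' a I hdeg h2), smul_zero]

/-- a linear map with values in `k` -/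
theorem lift_k {M : Type*} [AddCommGroup M] [Module k M] (Λ : M →ₗ[k] Ω)
    (h : ∀ m, Λ m ∈ KK k Ω) : ∃ θ : M →ₗ[k] k, ∀ m, algebraMap k Ω (θ m) = Λ m := by
  choose f hf using h
  have hinj := (algebraMap k Ω).injective
  refine ⟨{ toFun := f, map_add' := fun a b => hinj ?_, map_smul' := fun r a => hinj ?_ }, hf⟩
  · rw [map_add, hf, hf, hf, map_add]
  · rw [hf, map_smul, Algebra.smul_def, RingHom.id_apply, smul_eq_mul, map_mul, hf]

end tup

section decomp

variable {Ω : Type*} [Field Ω]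

/-- forms vanishing at `y` -/
theorem decomp [CharZero Ω] (y : Fin 3 → Ω) (hy : y ≠ 0) (κ : Fin 2 → Fin 3 → Ω)
    (orth : ∀ i, ∑ c, κ i c * y c = 0) (ind : LinearIndependent Ω κ) (D : ℕ)
    (G : MvPolynomial (Fin 3) Ω) (hG : G.IsHomogeneous (D + 1)) (h0 : eval y G = 0) :
    ∃ B0 B1 : MvPolynomial (Fin 3) Ω, B0.IsHomogeneous D ∧ B1.IsHomogeneous D ∧
      G = lin (κ 0) * B0 + lin (κ 1) * B1 := by
  classical
  -- complete to a basis
  obtain ⟨m, hm, hm0, hm1⟩ : ∃ m : Fin 3 → Fin 3 → Ω, LinearIndependent Ω m ∧ m 0 = κ 0 ∧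
      m 1 = κ 1 := by
    have hlt : Submodule.span Ω (Set.range κ) < ⊤ := by
      refine lt_top_iff_ne_top.2 fun htop => ?_
      have h1 : Module.finrank Ω (Submodule.span Ω (Set.range κ)) = 2 := by
        rw [finrank_span_eq_card ind]; simp
      rw [htop, finrank_top, Module.finrank_fin_fun] at h1
      omega
    obtain ⟨v, -, hv⟩ := SetLike.exists_of_lt hlt
    refine ⟨Fin.snoc κ v, linearIndependent_finSnoc.2 ⟨ind, hv⟩, rfl, rfl⟩
  obtain ⟨P, hP, hX⟩ := dual_basis m hm
  have hym : ∑ i, m 2 i * y i ≠ 0 := by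
    intro h2
    apply hy
    have hall : ∀ a, eval y (lin (m a)) = 0 := by
      intro a
      rw [eval_lin]
      fin_cases a
      · simpa [hm0] using orth 0
      · simpa [hm1] using orth 1
      · exact h2
    funext i
    have h := congrArg (eval y) (hX i)
    rw [eval_X, map_sum] at h
    rw [h]
    refine Finset.sum_eq_zero fun a _ => ?_
    rw [map_mul, hall a, mul_zero]
  induction D generalizing G with
  | zero =>
    obtain ⟨B, hB, rfl⟩ := euler hG
    have hc : ∀ i, B i = C (coeff 0 (B i)) := by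
      intro i
      have h := hB i
      rw [← totalDegree_zero_iff_isHomogeneous] at h
      exact totalDegree_eq_zero_iff_eq_C.1 h
    refine ⟨∑ i, C (P 0 i) * B i, ∑ i, C (P 1 i) * B i, ?_, ?_, ?_⟩
    · refine IsHomogeneous.sum _ _ _ fun i _ => ?_
      simpa using (isHomogeneous_C (Fin 3) (P 0 i)).mul (hB i)
    · refine IsHomogeneous.sum _ _ _ fun i _ => ?_
      simpa using (isHomogeneous_C (Fin 3) (P 1 i)).mul (hB i)
    · have e : ∑ i, X i * B i = lin (m 0) * (∑ i, C (P 0 i) * B i) +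
          lin (m 1) * (∑ i, C (P 1 i) * B i) + lin (m 2) * (∑ i, C (P 2 i) * B i) := by
        conv_lhs =>
          enter [2, i]
          rw [hX i, Fin.sum_univ_three]
        rw [Finset.mul_sum, Finset.mul_sum, Finset.mul_sum, ← Finset.sum_add_distrib,
          ← Finset.sum_add_distrib]
        refine Finset.sum_congr rfl fun i _ => by ring
      have hz : (∑ i, C (P 2 i) * B i : MvPolynomial (Fin 3) Ω) = 0 := by
        have h3 := h0
        rw [e, map_add, map_add, map_mul, map_mul, map_mul, eval_lin, eval_lin, eval_lin, hm0,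
          hm1, orth 0, orth 1, zero_mul, zero_mul, zero_add, zero_add] at h3
        have h4 := (mul_eq_zero.1 h3).resolve_left hym
        rw [map_sum] at h4
        have h5 : (∑ i, C (P 2 i) * B i : MvPolynomial (Fin 3) Ω) =
            C (∑ i, P 2 i * coeff 0 (B i)) := by
          rw [map_sum]
          refine Finset.sum_congr rfl fun i _ => ?_
          rw [map_mul, ← hc i]
        rw [h5]
        have h6 : ∑ i, P 2 i * coeff 0 (B i) = 0 := by
          rw [← h4]
          refine Finset.sum_congr rfl fun i _ => ?_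
          rw [map_mul, eval_C]
          congr 1
          conv_rhs => rw [hc i, eval_C]
        rw [h6, C_0]
      rw [e, hz, mul_zero, add_zero, hm0, hm1]
  | succ D ih =>
    obtain ⟨B, hB, rfl⟩ := euler hG
    have e : ∑ i, X i * B i = lin (m 0) * (∑ i, C (P 0 i) * B i) +
        lin (m 1) * (∑ i, C (P 1 i) * B i) + lin (m 2) * (∑ i, C (P 2 i) * B i) := by
      conv_lhs =>
        enter [2, i]
        rw [hX i, Fin.sum_univ_three]
      rw [Finset.mul_sum, Finset.mul_sum, Finset.mul_sum, ← Finset.sum_add_distrib,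
        ← Finset.sum_add_distrib]
      refine Finset.sum_congr rfl fun i _ => by ring
    have hh : ∀ b, (∑ i, C (P b i) * B i : MvPolynomial (Fin 3) Ω).IsHomogeneous (D + 1) := by
      intro b
      refine IsHomogeneous.sum _ _ _ fun i _ => ?_
      simpa using (isHomogeneous_C (Fin 3) (P b i)).mul (hB i)
    have hz : eval y (∑ i, C (P 2 i) * B i : MvPolynomial (Fin 3) Ω) = 0 := by
      have h3 := h0
      rw [e, map_add, map_add, map_mul, map_mul, map_mul, eval_lin, eval_lin, eval_lin, hm0,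
        hm1, orth 0, orth 1, zero_mul, zero_mul, zero_add, zero_add] at h3
      exact (mul_eq_zero.1 h3).resolve_left hym
    obtain ⟨B0, B1, hB0, hB1, hE⟩ := ih _ (hh 2) hz
    refine ⟨∑ i, C (P 0 i) * B i + lin (m 2) * B0, ∑ i, C (P 1 i) * B i + lin (m 2) * B1,
      (hh 0).add ?_, (hh 1).add ?_, ?_⟩
    · have := (lin_homogeneous (m 2)).mul hB0; rwa [add_comm] at this
    · have := (lin_homogeneous (m 2)).mul hB1; rwa [add_comm] at this
    · rw [e, hE, hm0, hm1]
      ring

/-- tuples vanishing at `y` -/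
theorem decompT [CharZero Ω] {c : ℕ} {d : Fin c → ℕ} (y : Fin 3 → Ω) (hy : y ≠ 0)
    (κ : Fin 2 → Fin 3 → Ω) (orth : ∀ i, ∑ c, κ i c * y c = 0) (ind : LinearIndependent Ω κ)
    (G : Fin c → MvPolynomial (Fin 3) Ω) (hG : IsB d G) (h0 : ∀ a, eval y (G a) = 0) :
    ∃ B0 B1 : Fin c → MvPolynomial (Fin 3) Ω, IsB' d B0 ∧ IsB' d B1 ∧
      (∀ a, G a = lin (κ 0) * B0 a + lin (κ 1) * B1 a) ∧ (∀ a, G a = 0 → B0 a = 0 ∧ B1 a = 0) := by
  have h : ∀ a, ∃ B0 B1 : MvPolynomial (Fin 3) Ω, (B0.IsHomogeneous (d a - 2) ∧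
      (d a < 2 → B0 = 0)) ∧ (B1.IsHomogeneous (d a - 2) ∧ (d a < 2 → B1 = 0)) ∧
      G a = lin (κ 0) * B0 + lin (κ 1) * B1 ∧ (G a = 0 → B0 = 0 ∧ B1 = 0) := by
    intro a
    by_cases hz : G a = 0
    · exact ⟨0, 0, ⟨isHomogeneous_zero _ _ _, fun _ => rfl⟩,
        ⟨isHomogeneous_zero _ _ _, fun _ => rfl⟩, by simp [hz], fun _ => ⟨rfl, rfl⟩⟩
    · by_cases h2 : d a < 2
      · exfalso
        apply hz
        have h3 := hG a
        rw [show d a - 1 = 0 by omega, ← totalDegree_zero_iff_isHomogeneous] at h3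
        have h4 := totalDegree_eq_zero_iff_eq_C.1 h3
        have h5 := h0 a
        rw [h4, eval_C] at h5
        rw [h4, h5, C_0]
      · have h3 := hG a
        rw [show d a - 1 = (d a - 2) + 1 by omega] at h3
        obtain ⟨B0, B1, hB0, hB1, hE⟩ := decomp y hy κ orth ind (d a - 2) (G a) h3 (h0 a)
        exact ⟨B0, B1, ⟨hB0, fun h => absurd h h2⟩, ⟨hB1, fun h => absurd h h2⟩, hE,
          fun h => absurd h hz⟩
  choose B0 B1 h0' h1' hE hz using h
  exact ⟨B0, B1, h0', h1', hE, hz⟩

end decomp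

end Pool.Agent.Edge.H53
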